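import Pool.Agent.Work.MP_b5d674_co.Q.Defs

/-! Anticoncentration of the tilted binomial law. -/

namespace Pool.Agent.Work.MP_b5d674_co.Q

open Finset

theorem anti_cb (n : ℕ) : (2 * n + 1) * n.centralBinom ^ 2 ≤ 16 ^ n := by
  induction n with
  | zero => simp
  | succ n ih =>
    have h := Nat.succ_mul_centralBinom_succ n
    refine Nat.le_of_mul_le_mul_left (c := (n + 1) ^ 2) ?_ (by positivity)
    calc (n + 1) ^ 2 * ((2 * (n + 1) + 1) * (n + 1).centralBinom ^ 2)
        = (2 * n + 3) * ((n + 1) * (n + 1).centralBinom) ^ 2 := by ring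
      _ = 4 * ((2 * n + 3) * (2 * n + 1)) * ((2 * n + 1) * n.centralBinom ^ 2) := by
        rw [h]; ring
      _ ≤ 4 * (4 * (n + 1) ^ 2) * 16 ^ n :=
        Nat.mul_le_mul (Nat.mul_le_mul_left _ (by nlinarith)) ih
      _ = (n + 1) ^ 2 * 16 ^ (n + 1) := by ring

theorem anti_mid (M i : ℕ) : (M + 1) * M.choose i ^ 2 ≤ 4 ^ M := by
  refine (Nat.mul_le_mul_left _ (Nat.pow_le_pow_left (Nat.choose_le_middle i M) 2)).trans ?_
  obtain ⟨n, rfl | rfl⟩ := Nat.even_or_odd' M
  · have h := anti_cb n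
    rw [Nat.centralBinom_eq_two_mul_choose] at h
    rw [show 2 * n / 2 = n by omega, pow_mul]
    exact h
  · have h := anti_cb (n + 1)
    have e : (n + 1).centralBinom = 2 * (2 * n + 1).choose n := by
      rw [Nat.centralBinom_eq_two_mul_choose, show 2 * (n + 1) = 2 * n + 1 + 1 by ring,
        Nat.choose_succ_succ', Nat.choose_symm_half]
      ring
    rw [e] at h
    rw [show (2 * n + 1) / 2 = n by omega, pow_succ 4, pow_mul]
    rw [pow_succ 16] at h
    norm_num
    nlinarith [Nat.zero_le ((2 * n + 1).choose n ^ 2)]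

theorem anti_term (a i m : ℕ) (hi : i ≤ a) :
    (a.choose i : ℝ) * ((a - i).choose m) * √(a + 1) ≤
      2 ^ (a - i) * (((a + 1).choose i : ℝ) + a.choose i) / 2 := by
  have h1 : (((a - i : ℕ) : ℝ) + 1) * ((a - i).choose m : ℝ) ^ 2 ≤ (2 ^ (a - i)) ^ 2 := by
    rw [← pow_mul, mul_comm (a - i) 2, pow_mul]
    norm_num
    exact_mod_cast anti_mid (a - i) m
  have h2 : (a.choose i : ℝ) * (a + 1) = ((a + 1).choose i : ℝ) * (((a - i : ℕ) : ℝ) + 1) := by
    have := Nat.choose_mul_succ_eq a i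
    rw [show a + 1 - i = a - i + 1 by omega] at this
    exact_mod_cast this
  have h3 : √((a : ℝ) + 1) ^ 2 = a + 1 := Real.sq_sqrt (by positivity)
  have p1 : (0 : ℝ) < 2 ^ (a - i) := by positivity
  have p2 : (0 : ℝ) ≤ a.choose i := by positivity
  have p3 : (0 : ℝ) ≤ (a + 1).choose i := by positivity
  generalize (2 : ℝ) ^ (a - i) = T at *
  generalize √((a : ℝ) + 1) = s at *
  generalize ((a - i).choose m : ℝ) = y at *
  generalize (a.choose i : ℝ) = c at *
  generalize ((a + 1).choose i : ℝ) = c' at *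
  generalize ((a - i : ℕ) : ℝ) + 1 = N at *
  have h4 : c * (y * s) ^ 2 ≤ c' * T ^ 2 := by
    calc c * (y * s) ^ 2 = c * s ^ 2 * y ^ 2 := by ring
      _ = c' * (N * y ^ 2) := by rw [h3, h2]; ring
      _ ≤ c' * T ^ 2 := mul_le_mul_of_nonneg_left h1 p3
  refine le_of_mul_le_mul_left ?_ p1
  nlinarith [mul_nonneg p2 (sq_nonneg (y * s - T))]

/-- `C(a,j) w^j` is the coefficient of `z^j` in `((1+z) + (w-1) z)^a`, hence at most
`∑_M C(a,M) (w-1)^(a-M) 2^M / √(M+1)` by `(M+1) C(M,i)^2 ≤ 4^M`; use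
`1/√(M+1) ≤ (√(a+1)/(M+1) + 1/√(a+1))/2` and `C(a,M)/(M+1) = C(a+1,M+1)/(a+1)`.
Any other proof is fine. -/
theorem anti (a j : ℕ) {w : ℝ} (h1 : 1 ≤ w) (h2 : w ≤ 2) :
    (a.choose j : ℝ) * w ^ j * √(a + 1) ≤ 2 * (1 + w) ^ a := by
  obtain ⟨x, rfl⟩ : ∃ x, w = x + 1 := ⟨w - 1, by ring⟩
  have x0 : 0 ≤ x := by linarith
  have p : 0 ≤ (x + 2) ^ a := by positivity
  rw [show 1 + (x + 1) = x + 2 by ring]
  rcases lt_or_ge a j with hj | hj
  · rw [Nat.choose_eq_zero_of_lt hj]
    simpa using p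
  have s1 : ∑ i ∈ range (a + 1), x ^ i * 2 ^ (a - i) * (a.choose i : ℝ) = (x + 2) ^ a :=
    (add_pow x 2 a).symm
  have s2 : ∑ i ∈ range (a + 1), x ^ i * 2 ^ (a - i) * ((a + 1).choose i : ℝ) ≤
      (x + 2) ^ (a + 1) / 2 := by
    rw [add_pow x 2 (a + 1), sum_range_succ _ (a + 1), le_div_iff₀ (by norm_num), sum_mul]
    refine le_trans (le_of_eq (sum_congr rfl fun i hi => ?_)) (le_add_of_nonneg_right (by positivity))
    rw [show a + 1 - i = a - i + 1 by have := mem_range.1 hi; omega, pow_succ]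
    ring
  calc (a.choose j : ℝ) * (x + 1) ^ j * √(a + 1)
      = ∑ i ∈ range (j + 1), x ^ i * ((a.choose i : ℝ) * ((a - i).choose (j - i)) * √(a + 1)) := by
        rw [add_pow x 1 j, mul_sum, sum_mul]
        refine sum_congr rfl fun i hi => ?_
        have e : (a.choose j : ℝ) * j.choose i = a.choose i * (a - i).choose (j - i) := by
          exact_mod_cast Nat.choose_mul (n := a) (Nat.le_of_lt_succ (mem_range.1 hi))
        rw [← e]
        ring
    _ ≤ ∑ i ∈ range (j + 1), x ^ i * (2 ^ (a - i) * (((a + 1).choose i : ℝ) + a.choose i) / 2) :=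
        sum_le_sum fun i hi => mul_le_mul_of_nonneg_left
          (anti_term a i _ (by have := mem_range.1 hi; omega)) (by positivity)
    _ ≤ ∑ i ∈ range (a + 1), x ^ i * (2 ^ (a - i) * (((a + 1).choose i : ℝ) + a.choose i) / 2) :=
        sum_le_sum_of_subset_of_nonneg (range_mono (by omega)) fun i _ _ => by positivity
    _ = (∑ i ∈ range (a + 1), x ^ i * 2 ^ (a - i) * ((a + 1).choose i : ℝ) +
          ∑ i ∈ range (a + 1), x ^ i * 2 ^ (a - i) * (a.choose i : ℝ)) / 2 := by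
        rw [← sum_add_distrib, sum_div]
        exact sum_congr rfl fun i _ => by ring
    _ ≤ 2 * (x + 2) ^ a := by
        rw [s1]
        rw [pow_succ] at s2
        nlinarith

end Pool.Agent.Work.MP_b5d674_co.Q
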