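import Pool.Agent.Work.MP_b5d674_co.Q.Defs

/-! The lower tail on a small set. -/

namespace Pool.Agent.Work.MP_b5d674_co.Q

open Finset

variable {ι : Type} [Fintype ι] [DecidableEq ι]

theorem bin_prod (A S : Finset ι) (w z : ℝ) :
    ∏ i ∈ S, (if i ∈ A then w * z else w) = w ^ S.card * z ^ (S ∩ A).card := by
  have h : ∀ i, (if i ∈ A then w * z else w) = w * (if i ∈ A then z else 1) := by
    intro i
    split_ifs <;> simp
  simp only [h]
  rw [prod_mul_distrib, prod_const, prod_ite_mem, prod_const]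

theorem bin_sum (A : Finset ι) {w z : ℝ} (h1 : 1 ≤ w) (hz0 : 0 ≤ z) (hz1 : z ≤ 1) :
    ∑ S : Finset ι, w ^ S.card * z ^ (S ∩ A).card
      ≤ (1 + w) ^ Fintype.card ι * ((1 + z) / 2) ^ A.card := by
  have e1 : ∑ S : Finset ι, w ^ S.card * z ^ (S ∩ A).card
      = ∏ i : ι, (1 + (if i ∈ A then w * z else w)) := by
    rw [prod_one_add, powerset_univ]
    exact sum_congr rfl fun S _ => (bin_prod A S w z).symm
  have e2 : (1 + w) ^ Fintype.card ι * ((1 + z) / 2) ^ A.card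
      = ∏ i : ι, ((1 + w) * (if i ∈ A then (1 + z) / 2 else 1)) := by
    rw [prod_mul_distrib, prod_const, prod_ite_mem, prod_const, univ_inter, card_univ]
  rw [e1, e2]
  refine prod_le_prod (fun i _ => ?_) (fun i _ => ?_)
  · have : 0 ≤ w * z := mul_nonneg (by linarith) hz0
    split_ifs <;> linarith
  · split_ifs
    · nlinarith [mul_nonneg (sub_nonneg.2 h1) (sub_nonneg.2 hz1)]
    · simp

theorem bin_cosh (x : ℝ) : (1 + Real.exp (-(2 * x))) / 2 ≤ Real.exp (x ^ 2 / 2 - x) := by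
  have h := Real.cosh_le_exp_half_sq x
  rw [Real.cosh_eq] at h
  have e1 : Real.exp (x ^ 2 / 2 - x) = Real.exp (x ^ 2 / 2) * Real.exp (-x) := by
    rw [← Real.exp_add]; ring_nf
  have e2 : Real.exp x * Real.exp (-x) = 1 := by
    rw [← Real.exp_add]; simp
  have e3 : Real.exp (-x) * Real.exp (-x) = Real.exp (-(2 * x)) := by
    rw [← Real.exp_add]; ring_nf
  have h0 := (Real.exp_pos (-x)).le
  have := mul_le_mul_of_nonneg_right h h0
  rw [e1]
  nlinarith

/-- Weights `w^|S| z^|S ∩ A|` with `z = exp (-2h/c)`: their sum is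
`(1+w)^(r-|A|) (1+wz)^|A|`, `(1+wz)/(1+w) ≤ (1+z)/2`, and `cosh x ≤ exp (x²/2)`. -/
theorem low_tail (A : Finset ι) {c h m : ℕ} (hc : 0 < c) (hA : A.card ≤ c) {w : ℝ} (h1 : 1 ≤ w) :
    ((univ.filter fun S : Finset ι => S.card = m ∧ 2 * (S ∩ A).card + h < A.card).card : ℝ) * w ^ m
      ≤ (1 + w) ^ Fintype.card ι * Real.exp (-((h : ℝ) ^ 2 / (2 * c))) := by
  have hc' : (0 : ℝ) < c := by exact_mod_cast hc
  set x : ℝ := (h : ℝ) / c with hx
  have hx0 : 0 ≤ x := by positivity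
  set z : ℝ := Real.exp (-(2 * x)) with hz
  have hz0 : 0 ≤ z := (Real.exp_pos _).le
  have hz1 : z ≤ 1 := Real.exp_le_one_iff.2 (by linarith)
  have hw0 : 0 ≤ w := by linarith
  set E : ℝ := Real.exp (x * ((A.card : ℝ) - h)) with hE
  have hE0 : 0 ≤ E := (Real.exp_pos _).le
  set T := univ.filter fun S : Finset ι => S.card = m ∧ 2 * (S ∩ A).card + h < A.card with hT
  have s1 : (T.card : ℝ) * w ^ m ≤ ∑ S ∈ T, w ^ S.card * z ^ (S ∩ A).card * E := by
    have : (T.card : ℝ) * w ^ m = ∑ _S ∈ T, w ^ m := by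
      rw [sum_const, nsmul_eq_mul]
    rw [this]
    refine sum_le_sum fun S hS => ?_
    rw [hT, mem_filter] at hS
    obtain ⟨-, hm, hlt⟩ := hS
    have hlt' : 2 * ((S ∩ A).card : ℝ) + h ≤ A.card := by exact_mod_cast hlt.le
    have h2 : 1 ≤ z ^ (S ∩ A).card * E := by
      rw [hz, hE, ← Real.exp_nat_mul, ← Real.exp_add]
      apply Real.one_le_exp
      nlinarith [mul_nonneg hx0 (sub_nonneg.2 hlt')]
    rw [hm, mul_assoc]
    exact le_mul_of_one_le_right (pow_nonneg hw0 _) h2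
  have s2 : ∑ S ∈ T, w ^ S.card * z ^ (S ∩ A).card * E
      ≤ (∑ S : Finset ι, w ^ S.card * z ^ (S ∩ A).card) * E := by
    rw [sum_mul]
    exact sum_le_sum_of_subset_of_nonneg (subset_univ _) fun S _ _ => by positivity
  have s3 := mul_le_mul_of_nonneg_right (bin_sum A h1 hz0 hz1) hE0
  have s4 : ((1 + z) / 2) ^ A.card * E ≤ Real.exp (-((h : ℝ) ^ 2 / (2 * c))) := by
    have a1 : ((1 + z) / 2) ^ A.card ≤ Real.exp (x ^ 2 / 2 - x) ^ A.card :=
      pow_le_pow_left₀ (by positivity) (bin_cosh x) _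
    refine (mul_le_mul_of_nonneg_right a1 hE0).trans ?_
    rw [hE, ← Real.exp_nat_mul, ← Real.exp_add, Real.exp_le_exp]
    have hA' : (A.card : ℝ) ≤ c := by exact_mod_cast hA
    have hh : (h : ℝ) = x * c := by rw [hx]; field_simp
    have a2 : (h : ℝ) ^ 2 / (2 * c) = x ^ 2 * c / 2 := by
      rw [hh]; field_simp
    rw [a2, hh]
    nlinarith [mul_nonneg (sq_nonneg x) (sub_nonneg.2 hA')]
  have s5 : (1 + w) ^ Fintype.card ι * ((1 + z) / 2) ^ A.card * E
      ≤ (1 + w) ^ Fintype.card ι * Real.exp (-((h : ℝ) ^ 2 / (2 * c))) := by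
    rw [mul_assoc]
    exact mul_le_mul_of_nonneg_left s4 (by positivity)
  linarith

end Pool.Agent.Work.MP_b5d674_co.Q
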