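import Pool.Agent.Work.MP_b5d674_co.Q.Defs

/-! The exponential moment in one cell. -/

namespace Pool.Agent.Work.MP_b5d674_co.Q

open Finset

theorem cell_geo {x : ℝ} (h0 : 0 ≤ x) (h1 : x ≤ 1 / 2) (t n : ℕ) :
    ∑ j ∈ range n, (if j ≤ t then 0 else x ^ j) + 2 * x ^ max n (t + 1) ≤ 2 * x ^ (t + 1) := by
  induction n with
  | zero => simp
  | succ n ih =>
    rw [sum_range_succ]
    by_cases hn : n ≤ t
    · rw [if_pos hn, max_eq_right (by omega)]
      rw [max_eq_right (by omega)] at ih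
      linarith
    · rw [if_neg hn, max_eq_left (by omega)]
      rw [max_eq_left (by omega)] at ih
      have h2 : 0 ≤ x ^ n := pow_nonneg h0 n
      have h3 : x ^ (n + 1) = x ^ n * x := pow_succ x n
      nlinarith

theorem cell_abs_sg (b : Bool) : |sg b| = 1 := by
  cases b <;> simp [sg]

theorem cell_pow_ag {c : ℕ} {w : ℝ} (hw : 1 ≤ w) (y p : Fin c → Bool) :
    w ^ ag y p = ((1 + w) / 2) ^ c *
      ∏ i, (1 + (w - 1) / (w + 1) * (sg (y i) * sg (p i))) := by
  have h1 : w ^ ag y p = ∏ i, (if y i = p i then w else 1) := by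
    rw [prod_ite, prod_const, prod_const_one, mul_one]; rfl
  have h2 : ((1 + w) / 2) ^ c = ∏ _i : Fin c, (1 + w) / 2 := by
    rw [prod_const, card_univ, Fintype.card_fin]
  rw [h1, h2, ← prod_mul_distrib]
  refine prod_congr rfl fun i _ => ?_
  have hw' : w + 1 ≠ 0 := by linarith
  cases y i <;> cases p i <;> simp [sg] <;> field_simp <;> ring

/-- `w ^ [y i = π u i] = (1+w)/2 * (1 + θ * sg (y i) * sg (π u i))`; expand the product with
`Finset.prod_one_add`, the terms with `0 < |v| ≤ t` vanish, the others are at most `P θ^|v|`, and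
`∑_{j>t} C(c,j) θ^j ≤ ∑_{j>t} (cθ)^j ≤ 2 (cθ)^(t+1)`. -/
theorem cell_mgf {c P t : ℕ} {π : Fin P → Fin c → Bool} (hπ : Indep π t) {w : ℝ} (hw : 1 ≤ w)
    (hθ : c * ((w - 1) / (w + 1)) ≤ 1 / 2) (y : Fin c → Bool) :
    ∑ u, w ^ ag y (π u) ≤
      P * ((1 + w) / 2) ^ c * (1 + 2 * (c * ((w - 1) / (w + 1))) ^ (t + 1)) := by
  simp only [cell_pow_ag hw]
  obtain ⟨θ, hθd⟩ : ∃ θ, θ = (w - 1) / (w + 1) := ⟨_, rfl⟩
  have hθ0 : 0 ≤ θ := by rw [hθd]; exact div_nonneg (by linarith) (by linarith)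
  rw [← hθd] at hθ ⊢
  have hx0 : 0 ≤ (c : ℝ) * θ := by positivity
  rw [← mul_sum, mul_comm (P : ℝ), mul_assoc]
  refine mul_le_mul_of_nonneg_left ?_ (by positivity)
  simp only [prod_one_add]
  rw [sum_comm]
  have hterm : ∀ v ∈ (univ : Finset (Fin c)).powerset,
      ∑ u, ∏ i ∈ v, θ * (sg (y i) * sg (π u i)) ≤
        (fun j : ℕ => (P : ℝ) * ((if j = 0 then 1 else 0) + if j ≤ t then 0 else θ ^ j)) v.card := by
    intro v _
    simp only []
    by_cases hv : v.card = 0
    · rw [card_eq_zero] at hv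
      subst hv
      simp
    · rw [if_neg hv, zero_add]
      by_cases hvt : v.card ≤ t
      · rw [if_pos hvt, mul_zero]
        have h0 := hπ v (card_pos.mp (Nat.pos_of_ne_zero hv)) hvt
        simp only [prod_mul_distrib]
        rw [← mul_sum, ← mul_sum, h0]
        simp
      · rw [if_neg hvt]
        have h1 : ∀ u ∈ (univ : Finset (Fin P)),
            ∏ i ∈ v, θ * (sg (y i) * sg (π u i)) ≤ θ ^ v.card := by
          intro u _
          refine le_trans (le_abs_self _) (le_of_eq ?_)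
          rw [abs_prod]
          simp only [abs_mul, cell_abs_sg, mul_one, abs_of_nonneg hθ0, prod_const]
        have h2 := sum_le_card_nsmul _ _ _ h1
        simpa using h2
  refine le_trans (sum_le_sum hterm) ?_
  rw [sum_powerset_apply_card
    (fun j : ℕ => (P : ℝ) * ((if j = 0 then 1 else 0) + if j ≤ t then 0 else θ ^ j))]
  simp only [card_univ, Fintype.card_fin, nsmul_eq_mul]
  have hb : ∀ j ∈ range (c + 1),
      (c.choose j : ℝ) * ((P : ℝ) * ((if j = 0 then 1 else 0) + if j ≤ t then 0 else θ ^ j)) ≤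
        P * ((if j = 0 then 1 else 0) + if j ≤ t then 0 else (c * θ) ^ j) := by
    intro j _
    rw [mul_left_comm]
    refine mul_le_mul_of_nonneg_left ?_ (Nat.cast_nonneg P)
    by_cases hj : j = 0
    · subst hj; simp
    · rw [if_neg hj, zero_add, zero_add]
      by_cases hjt : j ≤ t
      · simp [hjt]
      · rw [if_neg hjt, if_neg hjt, mul_pow]
        refine mul_le_mul_of_nonneg_right ?_ (pow_nonneg hθ0 j)
        exact_mod_cast Nat.choose_le_pow c j
  refine le_trans (sum_le_sum hb) ?_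
  rw [← mul_sum]
  refine mul_le_mul_of_nonneg_left ?_ (Nat.cast_nonneg P)
  rw [sum_add_distrib]
  have h3 : ∑ j ∈ range (c + 1), (if j = 0 then (1 : ℝ) else 0) = 1 := by simp
  have h4 := cell_geo hx0 hθ t (c + 1)
  have h5 : 0 ≤ ((c : ℝ) * θ) ^ max (c + 1) (t + 1) := pow_nonneg hx0 _
  linarith

end Pool.Agent.Work.MP_b5d674_co.Q
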