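import Pool.Agent.Work.MP_b5d674_co.Q.Defs

/-! A small family of sign vectors whose characters of low order vanish. -/

namespace Pool.Agent.Work.MP_b5d674_co.Q

open Finset

lemma code_small (c t : ℕ) :
    (univ.filter fun v : Finset (Fin c) => v.Nonempty ∧ v.card ≤ t).card < (c + 1) ^ t := by
  have h1 : insert ∅ (univ.filter fun v : Finset (Fin c) => v.Nonempty ∧ v.card ≤ t) ⊆
      (range (t + 1)).biUnion fun j => powersetCard j univ := by
    intro v hv
    refine mem_biUnion.2 ⟨v.card, mem_range.2 ?_, mem_powersetCard.2 ⟨subset_univ _, rfl⟩⟩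
    rcases mem_insert.1 hv with rfl | hv
    · simp
    · exact Nat.lt_succ_of_le (mem_filter.1 hv).2.2
  have h2 := (card_le_card h1).trans card_biUnion_le
  rw [card_insert_of_notMem (by simp)] at h2
  refine lt_of_lt_of_le (Nat.lt_succ_self _) (h2.trans ?_)
  rw [add_pow]
  refine sum_le_sum fun j hj => ?_
  rw [card_powersetCard, card_univ, Fintype.card_fin, one_pow, mul_one]
  exact (Nat.choose_le_pow c j).trans
    (Nat.le_mul_of_pos_right _ (Nat.choose_pos (Nat.le_of_lt_succ (mem_range.1 hj))))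

lemma code_exists {G : Type} [AddCommGroup G] [Fintype G] [DecidableEq G] (c t : ℕ)
    (h : (c + 1) ^ t ≤ Fintype.card G) :
    ∃ x : Fin c → G, ∀ v : Finset (Fin c), v.Nonempty → v.card ≤ t → ∑ i ∈ v, x i ≠ 0 := by
  by_contra hc
  push Not at hc
  set A := univ.filter fun v : Finset (Fin c) => v.Nonempty ∧ v.card ≤ t with hA
  have h1 : (univ : Finset (Fin c → G)) ⊆
      A.biUnion fun v => univ.filter fun x => ∑ i ∈ v, x i = 0 := fun x _ => by
    obtain ⟨v, h1, h2, h3⟩ := hc x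
    exact mem_biUnion.2 ⟨v, mem_filter.2 ⟨mem_univ _, h1, h2⟩, mem_filter.2 ⟨mem_univ _, h3⟩⟩
  have h2 : ∀ v ∈ A, (univ.filter fun x : Fin c → G => ∑ i ∈ v, x i = 0).card * Fintype.card G ≤
      (univ : Finset (Fin c → G)).card := fun v hv => by
    obtain ⟨j, hj⟩ := (mem_filter.1 hv).2.1
    rw [← card_univ, ← card_product]
    refine card_le_card_of_injOn (fun z => z.1 + Pi.single j z.2) (fun _ _ => mem_univ _) ?_
    intro z hz z' hz' e
    have h3 : ∀ y ∈ (univ.filter fun x : Fin c → G => ∑ i ∈ v, x i = 0) ×ˢ (univ : Finset G),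
        ∑ i ∈ v, (y.1 + Pi.single j y.2 : Fin c → G) i = y.2 := fun y hy => by
      simp only [Pi.add_apply, sum_add_distrib, (mem_filter.1 (mem_product.1 hy).1).2, zero_add]
      rw [sum_pi_single', if_pos hj]
    have e' : z.1 + Pi.single j z.2 = z'.1 + Pi.single j z'.2 := e
    have h4 : z.2 = z'.2 := by rw [← h3 z hz, ← h3 z' hz', e']
    rw [h4] at e'
    exact Prod.ext (add_right_cancel e') h4
  have h3 := Nat.mul_le_mul_right (Fintype.card G) ((card_le_card h1).trans card_biUnion_le)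
  rw [sum_mul] at h3
  have h4 := h3.trans (sum_le_card_nsmul _ _ _ h2)
  rw [smul_eq_mul, mul_comm] at h4
  have h5 := Nat.le_of_mul_le_mul_right h4 (card_pos.2 univ_nonempty)
  have h6 := code_small c t
  rw [← hA] at h6
  omega

lemma code_add (a b : ZMod 2) :
    sg (decide (a + b = 0)) = sg (decide (a = 0)) * sg (decide (b = 0)) := by
  have h : ∀ a b : ZMod 2, decide (a + b = 0) = (decide (a = 0) == decide (b = 0)) := by decide
  rw [h]
  cases decide (a = 0) <;> cases decide (b = 0) <;> simp [sg]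

lemma code_prod {c : ℕ} (v : Finset (Fin c)) (f : Fin c → ZMod 2) :
    ∏ i ∈ v, sg (decide (f i = 0)) = sg (decide (∑ i ∈ v, f i = 0)) := by
  induction v using Finset.induction_on with
  | empty => simp [sg]
  | insert a v ha ih => rw [prod_insert ha, sum_insert ha, code_add, ih]

lemma code_zero {s : ℕ} (w : Fin s → ZMod 2) (hw : w ≠ 0) :
    ∑ u : Fin s → ZMod 2, sg (decide (u ⬝ᵥ w = 0)) = 0 := by
  obtain ⟨j, hj⟩ := Function.ne_iff.1 hw
  have h1 := Equiv.sum_comp (Equiv.addRight (Pi.single j 1 : Fin s → ZMod 2))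
    fun u => sg (decide (u ⬝ᵥ w = 0))
  have h2 : sg (decide (w j = 0)) = -1 := by
    rw [decide_eq_false (show ¬ w j = 0 from hj)]
    simp [sg]
  simp only [Equiv.coe_addRight, add_dotProduct, single_dotProduct, one_mul, code_add, h2,
    mul_neg, mul_one, sum_neg_distrib] at h1
  linarith

/-- Take `s` least with `(c+1)^t ≤ 2^s`; there are fewer than `2^s` nonempty `v` with `|v| ≤ t`, so
by counting some `x : Fin c → (Fin s → ZMod 2)` has all sums `∑ i ∈ v, x i ≠ 0`; put
`π u i = decide (u ⬝ᵥ x i = 0)` and transport the index set to `Fin (2^s)`. -/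
theorem exists_code (c t : ℕ) :
    ∃ P : ℕ, 0 < P ∧ P ≤ 2 * (c + 1) ^ t ∧ ∃ π : Fin P → Fin c → Bool, Indep π t := by
  have h0 : 0 < (c + 1) ^ t := by positivity
  have h1 := Nat.le_pow_clog (b := 2) (by norm_num) ((c + 1) ^ t)
  have h2 : 2 ^ Nat.clog 2 ((c + 1) ^ t) ≤ 2 * (c + 1) ^ t := by
    rcases Nat.eq_zero_or_pos (Nat.clog 2 ((c + 1) ^ t)) with h | h
    · rw [h]; omega
    · have h3 := Nat.pow_lt_of_lt_clog (b := 2) (x := (c + 1) ^ t) (Nat.sub_lt h one_pos)
      obtain ⟨s, hs⟩ : ∃ s, Nat.clog 2 ((c + 1) ^ t) = s + 1 := ⟨_, (Nat.succ_pred_eq_of_pos h).symm⟩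
      rw [hs] at h3 ⊢
      rw [Nat.add_sub_cancel] at h3
      rw [pow_succ]
      omega
  generalize Nat.clog 2 ((c + 1) ^ t) = s at h1 h2
  have h3 : Fintype.card (Fin s → ZMod 2) = 2 ^ s := by simp
  obtain ⟨x, hx⟩ := code_exists (G := Fin s → ZMod 2) c t (h3 ▸ h1)
  let e := (Fintype.equivFinOfCardEq h3).symm
  refine ⟨2 ^ s, by positivity, h2, fun u i => decide (e u ⬝ᵥ x i = 0), fun v hv ht => ?_⟩
  rw [← code_zero _ (hx v hv ht), ← Equiv.sum_comp e]
  refine sum_congr rfl fun u _ => ?_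
  rw [code_prod, dotProduct_sum]

end Pool.Agent.Work.MP_b5d674_co.Q
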