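import Mathlib

/-! Definitions for the bound `k₀(r) ≥ 2^r / r^ε`. -/

namespace Pool.Agent.Work.MP_b5d674_co.Q

open Finset

variable {ι : Type} [Fintype ι] [DecidableEq ι]

/-- The number of positions where two sign vectors agree. -/
def ag (y p : ι → Bool) : ℕ := (univ.filter fun i => y i = p i).card

/-- The positions where two sign vectors differ. -/
def dif (p p' : ι → Bool) : Finset ι := univ.filter fun i => p i ≠ p' i

/-- The sign of a bit. -/
def sg (b : Bool) : ℝ := if b then 1 else -1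

/-- `S` is a good support for the family `k`. -/
def Good {n l : ℕ} (Q : Fin l → Finset ι) (p : Fin n → ι → Bool) (m D h : ℕ) (k : Fin n)
    (S : Finset ι) : Prop :=
  S.card = m ∧
  (∀ k', k' ≠ k → (dif (p k) (p k')).card + D ≤ 2 * (S ∩ dif (p k) (p k')).card ∧
    Fintype.card ι ≤ (dif (p k) (p k')).card + m) ∧
  (∀ τ, (Q τ).card ≤ 2 * (S ∩ Q τ).card + h) ∧
  ∀ τ k', (Q τ ∩ dif (p k) (p k')).card ≤ 2 * (S ∩ (Q τ ∩ dif (p k) (p k'))).card + h

open Classical in
/-- The good pairs. -/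
noncomputable def goods {n l : ℕ} (Q : Fin l → Finset ι) (p : Fin n → ι → Bool) (m D h : ℕ) :
    Finset (Fin n × Finset ι) := univ.filter fun z => Good Q p m D h z.1 z.2

/-- The positions where the sign `p i` is blocked. -/
def blk (B : Bool → Finset ι) (p : ι → Bool) : Finset ι := univ.filter fun i => i ∈ B (p i)

/-- The cell `τ` kills the family `k`. -/
def Kills {n l : ℕ} (Q : Fin l → Finset ι) (p : Fin n → ι → Bool) (m D h : ℕ)
    (B : Bool → Finset ι) (k : Fin n) (τ : Fin l) : Prop :=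
  ∀ S, Good Q p m D h k S → ¬ S ∩ Q τ ⊆ blk B (p k)

/-- `S` is locally good for the pattern `ω`. -/
def Loc {l : ℕ} {Ω : Type} (Q : Fin l → Finset ι) (pt : Ω → ι → Bool) (h : ℕ) (ω : Ω)
    (S : Finset ι) : Prop :=
  (∀ τ, (Q τ).card ≤ 2 * (S ∩ Q τ).card + h) ∧
  ∀ τ ω', (Q τ ∩ dif (pt ω) (pt ω')).card ≤ 2 * (S ∩ (Q τ ∩ dif (pt ω) (pt ω'))).card + h

/-- The positions: `l` cells of size `c` and a free part of size `f`. -/
abbrev Pos (l c f : ℕ) : Type := (Fin l × Fin c) ⊕ Fin f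

/-- The patterns. -/
abbrev Om (l P f : ℕ) : Type := (Fin l → Fin P) × (Fin f → Bool)

/-- The sign vector of a pattern. -/
def pat {l c f P : ℕ} (π : Fin P → Fin c → Bool) (ω : Om l P f) : Pos l c f → Bool :=
  Sum.elim (fun x => π (ω.1 x.1) x.2) ω.2

/-- The cells. -/
def cell (l c f : ℕ) (τ : Fin l) : Finset (Pos l c f) :=
  univ.image fun a : Fin c => Sum.inl (τ, a)

/-- All characters of order at most `t` vanish. -/
def Indep {c P : ℕ} (π : Fin P → Fin c → Bool) (t : ℕ) : Prop :=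
  ∀ v : Finset (Fin c), v.Nonempty → v.card ≤ t → ∑ u, ∏ i ∈ v, sg (π u i) = 0

end Pool.Agent.Work.MP_b5d674_co.Q
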