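import Pool.Agent.Work.MP_b5d674_co.Q.Defs

/-! The expected number of good pairs. -/

namespace Pool.Agent.Work.MP_b5d674_co.Q

open Finset

variable {ι : Type} [Fintype ι] [DecidableEq ι]

/-- Fix all coordinates but one. -/
theorem exa_fix {Ω : Type} [Fintype Ω] [Nonempty Ω] {n : ℕ} {k k' : Fin n} (hk : k' ≠ k)
    (f : Ω → Ω → ℝ) {τ : ℝ} (h : ∀ a, ∑ b, f a b ≤ τ * Fintype.card Ω) :
    ∑ ω : Fin n → Ω, f (ω k) (ω k') ≤ τ * (Fintype.card Ω : ℝ) ^ n := by
  have e : ∑ z : (Fin n → Ω) × Ω, f (z.1 k) (z.1 k') = ∑ z : (Fin n → Ω) × Ω, f (z.1 k) z.2 :=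
    Fintype.sum_equiv (Function.Involutive.toPerm
      (fun z : (Fin n → Ω) × Ω => (Function.update z.1 k' z.2, z.1 k')) fun z => by simp) _ _
      fun z => by simp [Function.update_of_ne hk.symm]
  have hp : (0 : ℝ) < Fintype.card Ω := Nat.cast_pos.2 Fintype.card_pos
  rw [Fintype.sum_prod_type, Fintype.sum_prod_type] at e
  dsimp only at e
  rw [sum_comm, sum_const, card_univ, nsmul_eq_mul] at e
  refine le_of_mul_le_mul_left (e.trans_le ((sum_le_sum fun ω _ => h (ω k)).trans_eq ?_)) hp
  simp only [sum_const, card_univ, nsmul_eq_mul, Fintype.card_fun, Fintype.card_fin, Nat.cast_pow]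
  ring

omit [DecidableEq ι] in
theorem exa_ag (p p' : ι → Bool) : ag p p' + (dif p p').card = Fintype.card ι :=
  card_filter_add_card_filter_not (s := univ) fun i => p i = p' i

theorem exa_flip (S : Finset ι) (p p' : ι → Bool) :
    ag (fun i => if i ∈ S then p i else !p i) p' + 2 * (S ∩ dif p p').card =
      S.card + (dif p p').card := by
  have e : (univ.filter fun i => (if i ∈ S then p i else !p i) = p' i) =
      S \ dif p p' ∪ dif p p' \ S := by
    ext i
    by_cases h : i ∈ S <;> cases h1 : p i <;> cases h2 : p' i <;> simp [dif, h, h1, h2]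
  have a := card_sdiff_add_card_inter S (dif p p')
  have b := card_sdiff_add_card_inter (dif p p') S
  rw [inter_comm] at b
  rw [ag, e, card_union_of_disjoint disjoint_sdiff_sdiff]
  omega

open Classical in
/-- The union bound, pointwise. -/
theorem exa_one {Ω : Type} {n l m D h : ℕ} (Q : Fin l → Finset ι) (pt : Ω → ι → Bool)
    (ω : Fin n → Ω) (k : Fin n) {S : Finset ι} (hS : S.card = m) :
    (1 : ℝ) ≤ (if Good Q (fun k => pt (ω k)) m D h k S then 1 else 0) +
      (if ¬ Loc Q pt h (ω k) S then 1 else 0) + ∑ k' ∈ univ.erase k,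
        ((if m < ag (fun i => if i ∈ S then pt (ω k) i else !pt (ω k) i) (pt (ω k')) + D
          then 1 else 0) + if m < ag (pt (ω k)) (pt (ω k')) + D then 1 else 0) := by
  have z : ∀ P : Prop, (0 : ℝ) ≤ if P then 1 else 0 := fun P => by split_ifs <;> norm_num
  by_contra hc
  have hc := not_le.1 hc
  have s0 := fun k' (hk : k' ∈ univ.erase k) => single_le_sum (f := fun k' =>
    ((if m < ag (fun i => if i ∈ S then pt (ω k) i else !pt (ω k) i) (pt (ω k')) + D
      then (1 : ℝ) else 0) + if m < ag (pt (ω k)) (pt (ω k')) + D then 1 else 0))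
    (fun _ _ => add_nonneg (by split_ifs <;> norm_num) (by split_ifs <;> norm_num)) hk
  have s1 : (0 : ℝ) ≤ ∑ k' ∈ univ.erase k,
      ((if m < ag (fun i => if i ∈ S then pt (ω k) i else !pt (ω k) i) (pt (ω k')) + D
        then 1 else 0) + if m < ag (pt (ω k)) (pt (ω k')) + D then 1 else 0) :=
    sum_nonneg fun _ _ => add_nonneg (by split_ifs <;> norm_num) (by split_ifs <;> norm_num)
  have g0 := z (Good Q (fun k => pt (ω k)) m D h k S)
  have l0 := z (¬ Loc Q pt h (ω k) S)
  have hl : Loc Q pt h (ω k) S := by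
    by_contra hl
    rw [if_pos hl] at hc
    linarith only [hc, s1, g0]
  have hg : Good Q (fun k => pt (ω k)) m D h k S := by
    refine ⟨hS, fun k' hk => ?_, hl.1, fun τ k' => hl.2 τ (ω k')⟩
    have s2 := s0 k' (mem_erase.2 ⟨hk, mem_univ _⟩)
    have a := exa_flip S (pt (ω k)) (pt (ω k'))
    have b := exa_ag (pt (ω k)) (pt (ω k'))
    rw [if_neg (not_not.2 hl)] at hc
    split_ifs at s2
    · linarith only [hc, s2, g0]
    · linarith only [hc, s2, g0]
    · linarith only [hc, s2, g0]
    · dsimp only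
      constructor <;> omega
  rw [if_pos hg, if_neg (not_not.2 hl)] at hc
  linarith only [hc, s1]

open Classical in
/-- For fixed `k`, `S` with `|S| = m`: put `x = pt (ω k)` on `S` and its negation off `S`; then
`ag x p' + 2 |S ∩ N| = m + |N|` and `ag p p' + |N| = card ι` for `N = dif p p'`.  So `Good` fails
only if `Loc` fails or, for some `k' ≠ k`, `m < ag x (pt (ω k')) + D` or
`m < ag (pt (ω k)) (pt (ω k')) + D`; each of these events has at most `τ card Ω ^ n` elements
(fix all coordinates but `k'`). -/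
theorem expect {Ω : Type} [Fintype Ω] [Nonempty Ω] {n l m D h : ℕ} (Q : Fin l → Finset ι)
    (pt : Ω → ι → Bool) {τ : ℝ}
    (htail : ∀ y, ((univ.filter fun ω => m < ag y (pt ω) + D).card : ℝ) ≤ τ * Fintype.card Ω)
    (hn : 8 * n * τ ≤ 1)
    (hloc : ∀ ω, 4 * (univ.filter fun S : Finset ι => S.card = m ∧ ¬ Loc Q pt h ω S).card ≤
      (Fintype.card ι).choose m) :
    Fintype.card Ω ^ n * (n * (Fintype.card ι).choose m) ≤
      2 * ∑ ω : Fin n → Ω, (goods Q (fun k => pt (ω k)) m D h).card := by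
  have hp : (0 : ℝ) < Fintype.card Ω := Nat.cast_pos.2 Fintype.card_pos
  obtain ⟨N, hN⟩ : ∃ N : ℝ, N = (Fintype.card Ω : ℝ) ^ n := ⟨_, rfl⟩
  obtain ⟨C, hC⟩ : ∃ C : ℝ, C = ((Fintype.card ι).choose m : ℕ) := ⟨_, rfl⟩
  have N0 : 0 ≤ N := hN ▸ by positivity
  have τ0 : 0 ≤ τ := le_of_mul_le_mul_right
    ((zero_mul _).le.trans ((Nat.cast_nonneg _).trans (htail fun _ => true))) hp
  have cS : ((powersetCard m (univ : Finset ι)).card : ℝ) = C := by
    rw [card_powersetCard, card_univ, hC]
  have cN : (Fintype.card (Fin n → Ω) : ℝ) = N := by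
    rw [Fintype.card_fun, Fintype.card_fin, Nat.cast_pow, hN]
  have t : ∀ (y : Ω → ι → Bool) (k k' : Fin n), k' ≠ k → ∑ ω : Fin n → Ω,
      (if m < ag (y (ω k)) (pt (ω k')) + D then (1 : ℝ) else 0) ≤ τ * N := fun y k k' hk => by
    rw [hN]
    exact exa_fix hk (fun a b => if m < ag (y a) (pt b) + D then 1 else 0) fun a => by
      rw [sum_boole]
      exact htail (y a)
  have key : ∀ k : Fin n, N * C ≤ 2 * ∑ ω : Fin n → Ω, ∑ S : Finset ι,
      (if Good Q (fun k => pt (ω k)) m D h k S then (1 : ℝ) else 0) := fun k => by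
    have a := sum_le_sum fun S (hS : S ∈ powersetCard m (univ : Finset ι)) =>
      sum_le_sum fun (ω : Fin n → Ω) (_ : ω ∈ univ) =>
        exa_one (D := D) (h := h) Q pt ω k (mem_powersetCard.1 hS).2
    simp only [sum_add_distrib, sum_const, card_univ, nsmul_eq_mul, mul_one, cS, cN] at a
    have b : ∑ S ∈ powersetCard m (univ : Finset ι), ∑ ω : Fin n → Ω,
        (if Good Q (fun k => pt (ω k)) m D h k S then (1 : ℝ) else 0) ≤
        ∑ ω : Fin n → Ω, ∑ S : Finset ι,
          (if Good Q (fun k => pt (ω k)) m D h k S then (1 : ℝ) else 0) := by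
      rw [sum_comm]
      exact sum_le_sum fun ω _ => sum_le_sum_of_subset_of_nonneg (subset_univ _)
        fun _ _ _ => by split_ifs <;> norm_num
    have c : ∑ S ∈ powersetCard m (univ : Finset ι), ∑ ω : Fin n → Ω,
        (if ¬ Loc Q pt h (ω k) S then (1 : ℝ) else 0) ≤ N * (C / 4) := by
      rw [sum_comm, ← cN, ← nsmul_eq_mul, ← card_univ, ← sum_const]
      refine sum_le_sum fun ω _ => ?_
      have c1 : (4 : ℝ) * (univ.filter fun S : Finset ι =>
          S.card = m ∧ ¬ Loc Q pt h (ω k) S).card ≤ C := by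
        rw [hC]
        exact_mod_cast hloc (ω k)
      have c2 : ((powersetCard m univ).filter fun S : Finset ι => ¬ Loc Q pt h (ω k) S) =
          univ.filter fun S : Finset ι => S.card = m ∧ ¬ Loc Q pt h (ω k) S := by
        ext S
        simp
      rw [sum_boole, c2]
      linarith only [c1]
    have d : ∀ y : Finset ι → Ω → ι → Bool, ∑ S ∈ powersetCard m (univ : Finset ι),
        ∑ ω : Fin n → Ω, ∑ k' ∈ univ.erase k,
          (if m < ag (y S (ω k)) (pt (ω k')) + D then (1 : ℝ) else 0) ≤ C * (N / 8) := fun y => by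
      rw [← cS, ← nsmul_eq_mul, ← sum_const]
      refine sum_le_sum fun S _ => ?_
      rw [sum_comm]
      refine (sum_le_sum fun k' hk => t (y S) k k' (mem_erase.1 hk).1).trans ?_
      have d1 : ((univ.erase k).card : ℝ) ≤ n := by
        exact_mod_cast card_erase_le.trans (by simp)
      have d2 := mul_le_mul_of_nonneg_right d1 (mul_nonneg τ0 N0)
      have d3 := mul_le_mul_of_nonneg_right hn N0
      rw [sum_const, nsmul_eq_mul]
      linarith only [d2, d3]
    have d1 := d fun S a i => if i ∈ S then pt a i else !pt a i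
    have d2 := d fun _ a => pt a
    rw [sum_const, nsmul_eq_mul, cS] at d2
    linarith only [a, b, c, d1, d2]
  have fin := sum_le_sum fun k (_ : k ∈ univ) => key k
  rw [sum_const, card_univ, Fintype.card_fin, nsmul_eq_mul, ← mul_sum, sum_comm] at fin
  have e : ∀ ω : Fin n → Ω, ((goods Q (fun k => pt (ω k)) m D h).card : ℝ) = ∑ k, ∑ S : Finset ι,
      (if Good Q (fun k => pt (ω k)) m D h k S then (1 : ℝ) else 0) := fun ω => by
    rw [goods, ← sum_boole, Fintype.sum_prod_type]
  rw [← Nat.cast_le (α := ℝ)]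
  push_cast
  rw [← hN, ← hC, sum_congr rfl fun ω _ => e ω]
  linarith only [fin]

end Pool.Agent.Work.MP_b5d674_co.Q
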