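import Pool.Agent.Work.MP_b5d674_co.Q.Defs

/-! The list bound holds for most choices of the families. -/

namespace Pool.Agent.Work.MP_b5d674_co.Q

open Finset

variable {ι : Type} [Fintype ι] [DecidableEq ι]

open Classical in
theorem exb_one {Ω : Type} [Fintype Ω] {n s : ℕ} (A : Ω → Prop) {a M : ℝ} (h0 : 0 ≤ a)
    (ha : ((univ.filter A).card : ℝ) ≤ a * Fintype.card Ω) (hM : 2 * n * a + s ≤ M) :
    ((univ.filter fun ω : Fin n → Ω =>
      ¬ ((univ.filter fun k => A (ω k)).card : ℝ) ≤ M).card : ℝ) * 2 ^ s ≤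
      (Fintype.card Ω : ℝ) ^ n := by
  have e1 : ∑ ω : Fin n → Ω, (2 : ℝ) ^ (univ.filter fun k => A (ω k)).card =
      (∑ x : Ω, if A x then (2 : ℝ) else 1) ^ n := by
    rw [Fintype.sum_pow]
    refine Finset.sum_congr rfl fun ω _ => ?_
    rw [Finset.prod_ite, Finset.prod_const, Finset.prod_const_one, mul_one]
  have e2 : (∑ x : Ω, if A x then (2 : ℝ) else 1) ≤ Fintype.card Ω * Real.exp a := by
    have : (∑ x : Ω, if A x then (2 : ℝ) else 1) =
        ∑ x : Ω, (1 + if A x then (1 : ℝ) else 0) :=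
      Finset.sum_congr rfl fun x _ => by split_ifs <;> norm_num
    rw [this, Finset.sum_add_distrib, Finset.sum_boole, Finset.sum_const, card_univ, nsmul_eq_mul]
    have h1 := Real.add_one_le_exp a
    have h2 : (0 : ℝ) ≤ Fintype.card Ω := Nat.cast_nonneg _
    nlinarith
  have e3 : (∑ x : Ω, if A x then (2 : ℝ) else 1) ^ n ≤
      (Fintype.card Ω : ℝ) ^ n * Real.exp (n * a) := by
    rw [Real.exp_nat_mul, ← mul_pow]
    exact pow_le_pow_left₀ (Finset.sum_nonneg fun x _ => by split_ifs <;> norm_num) e2 n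
  have e4 : ∀ L : ℕ, ¬ (L : ℝ) ≤ M → 2 ^ s * Real.exp (n * a) ≤ (2 : ℝ) ^ L := by
    intro L hL
    have h1 : 0 ≤ (n : ℝ) * a := by positivity
    have h2 : s ≤ L := by
      have : (s : ℝ) ≤ L := by linarith [not_le.1 hL]
      exact_mod_cast this
    obtain ⟨j, rfl⟩ := Nat.exists_eq_add_of_le h2
    rw [pow_add]
    refine mul_le_mul_of_nonneg_left ?_ (by positivity)
    have h3 : (2 : ℝ) ^ j = Real.exp (j * Real.log 2) := by
      rw [Real.exp_nat_mul, Real.exp_log (by norm_num)]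
    rw [h3, Real.exp_le_exp]
    have h4 := Real.log_two_gt_d9
    have h5 : (0 : ℝ) ≤ j := Nat.cast_nonneg _
    push_cast at hL
    nlinarith [not_le.1 hL]
  have e5 := Finset.card_nsmul_le_sum (univ.filter fun ω : Fin n → Ω =>
      ¬ ((univ.filter fun k => A (ω k)).card : ℝ) ≤ M)
    (fun ω => (2 : ℝ) ^ (univ.filter fun k => A (ω k)).card) (2 ^ s * Real.exp (n * a))
    fun ω hω => e4 _ (mem_filter.1 hω).2
  have e6 := Finset.sum_le_sum_of_subset_of_nonneg (filter_subset (fun ω : Fin n → Ω =>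
      ¬ ((univ.filter fun k => A (ω k)).card : ℝ) ≤ M) univ)
    (f := fun ω => (2 : ℝ) ^ (univ.filter fun k => A (ω k)).card) fun _ _ _ => by positivity
  rw [nsmul_eq_mul, ← mul_assoc] at e5
  exact le_of_mul_le_mul_right (e5.trans (e6.trans (e1.le.trans e3))) (Real.exp_pos _)

open Classical in
/-- For fixed `y`, `δ`: `∑_ω 2^|L| = (card Ω + |A|)^n ≤ card Ω ^ n exp (n a δ) ≤ card Ω ^ n 4^(n a δ)`
(`Finset.prod_univ_sum` or `Fintype.sum_pow`), so at most `card Ω ^ n / 2^(2r+3)` choices have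
`|L| > M δ`; there are `2^r (m+1) ≤ 4^r` pairs. -/
theorem lists {Ω : Type} [Fintype Ω] [Nonempty Ω] {n m : ℕ} (pt : Ω → ι → Bool) (a M : ℕ → ℝ)
    (hm : m ≤ Fintype.card ι)
    (ha : ∀ y δ, ((univ.filter fun ω => m ≤ ag y (pt ω) + δ).card : ℝ) ≤ a δ * Fintype.card Ω)
    (hM : ∀ δ ≤ m, 2 * n * a δ + 2 * Fintype.card ι + 3 ≤ M δ) :
    4 * (univ.filter fun ω : Fin n → Ω => ¬ ∀ (y : ι → Bool) (δ : ℕ), δ ≤ m →
        ((univ.filter fun k => m ≤ ag y (pt (ω k)) + δ).card : ℝ) ≤ M δ).card ≤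
      Fintype.card Ω ^ n := by
  set r := Fintype.card ι with hr
  have h0 : ∀ δ, 0 ≤ a δ := fun δ => by
    have h1 := (Nat.cast_nonneg _).trans (ha (fun _ => true) δ)
    have h2 : (0 : ℝ) < Fintype.card Ω := by exact_mod_cast Fintype.card_pos
    exact nonneg_of_mul_nonneg_left h1 h2
  set bad : (ι → Bool) × ℕ → Finset (Fin n → Ω) := fun z => univ.filter fun ω =>
    ¬ ((univ.filter fun k => m ≤ ag z.1 (pt (ω k)) + z.2).card : ℝ) ≤ M z.2 with hbad
  have h1 : ∀ z ∈ (univ : Finset (ι → Bool)) ×ˢ range (m + 1),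
      (bad z).card * 2 ^ (2 * r + 3) ≤ Fintype.card Ω ^ n := fun z hz => by
    have h2 := exb_one (n := n) (s := 2 * r + 3) (fun ω => m ≤ ag z.1 (pt ω) + z.2) (h0 z.2)
      (by convert ha z.1 z.2) (M := M z.2) (by
        have := hM z.2 (by have := mem_range.1 (mem_product.1 hz).2; omega)
        push_cast
        linarith)
    have h3 : ((bad z).card : ℝ) * 2 ^ (2 * r + 3) ≤ (Fintype.card Ω : ℝ) ^ n := by
      convert h2
    exact_mod_cast h3
  have h2 : (univ.filter fun ω : Fin n → Ω => ¬ ∀ (y : ι → Bool) (δ : ℕ), δ ≤ m →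
      ((univ.filter fun k => m ≤ ag y (pt (ω k)) + δ).card : ℝ) ≤ M δ) ⊆
      ((univ : Finset (ι → Bool)) ×ˢ range (m + 1)).biUnion bad := by
    intro ω hω
    have h3 := (mem_filter.1 hω).2
    push Not at h3
    obtain ⟨y, δ, h4, h5⟩ := h3
    exact mem_biUnion.2 ⟨(y, δ), mem_product.2 ⟨mem_univ _, mem_range.2 (by omega)⟩,
      mem_filter.2 ⟨mem_univ _, not_le.2 h5⟩⟩
  have h3 := (card_le_card h2).trans card_biUnion_le
  have h4 := Finset.sum_le_card_nsmul _ _ _ h1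
  rw [← Finset.sum_mul, card_product, card_univ, card_range, Fintype.card_fun, Fintype.card_bool,
    smul_eq_mul, ← hr] at h4
  have h5 : m + 1 ≤ 2 ^ r := (Nat.succ_le_succ hm).trans Nat.lt_two_pow_self
  have h6 : 2 ^ (2 * r + 3) = 8 * (2 ^ r * 2 ^ r) := by ring
  have h7 : 0 < 2 ^ r * 2 ^ r := by positivity
  have h8 := (Nat.mul_le_mul_right (2 ^ (2 * r + 3)) h3).trans (h4.trans
    (Nat.mul_le_mul_right _ (Nat.mul_le_mul_left _ h5)))
  rw [h6, ← mul_assoc, mul_comm (2 ^ r * 2 ^ r)] at h8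
  have h9 := Nat.le_of_mul_le_mul_right h8 h7
  omega

end Pool.Agent.Work.MP_b5d674_co.Q
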