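import Pool.Agent.Work.MP_b5d674_co.Q.Defs

/-! Greedy choice of cells. -/

namespace Pool.Agent.Work.MP_b5d674_co.Q

open Finset

open Classical in
theorem hit_avg {κ U : Type} [Fintype U] [Nonempty U] {l j0 : ℕ} (hl : 0 < l) (R : Finset κ)
    (K : κ → Finset (Fin l)) (col : κ → Fin l → U) (J : Finset (Fin l))
    (hK : ∀ k ∈ R, j0 + J.card ≤ (K k).card) :
    ∃ (τ : Fin l) (u : U), (R.card : ℝ) * ((j0 : ℝ) / (l * Fintype.card U)) ≤
      ((R.filter fun k => τ ∉ J ∧ τ ∈ K k ∧ col k τ = u).card : ℝ) := by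
  have hU : 0 < Fintype.card U := Fintype.card_pos
  have hpos : (0 : ℝ) < l * Fintype.card U := by positivity
  have hne : (univ : Finset (Fin l × U)).Nonempty := ⟨(⟨0, hl⟩, Classical.arbitrary U), mem_univ _⟩
  have hsum : R.card * j0 ≤
      ∑ z : Fin l × U, (R.filter fun k => z.1 ∉ J ∧ z.1 ∈ K k ∧ col k z.1 = z.2).card := by
    simp only [card_filter]
    rw [sum_comm]
    rw [← smul_eq_mul, ← sum_const]
    refine sum_le_sum fun k hk => ?_
    rw [← card_filter]
    have h1 : j0 ≤ (K k \ J).card := by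
      have := le_card_sdiff J (K k)
      have := hK k hk
      omega
    refine h1.trans (card_le_card_of_injOn (fun τ => (τ, col k τ)) ?_ ?_)
    · intro τ hτ
      have h2 := mem_sdiff.1 (mem_coe.1 hτ)
      exact mem_coe.2 (mem_filter.2 ⟨mem_univ _, h2.2, h2.1, rfl⟩)
    · intro a _ b _ h
      exact congrArg Prod.fst h
  have h3 : ∑ _z : Fin l × U, (R.card : ℝ) * ((j0 : ℝ) / (l * Fintype.card U)) ≤
      ∑ z : Fin l × U,
        ((R.filter fun k => z.1 ∉ J ∧ z.1 ∈ K k ∧ col k z.1 = z.2).card : ℝ) := by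
    rw [sum_const, card_univ, Fintype.card_prod, Fintype.card_fin, nsmul_eq_mul, ← Nat.cast_sum]
    have h4 : ((l * Fintype.card U : ℕ) : ℝ) * ((R.card : ℝ) * ((j0 : ℝ) / (l * Fintype.card U))) =
        ((R.card * j0 : ℕ) : ℝ) := by
      push_cast
      field_simp
    rw [h4]
    exact_mod_cast hsum
  obtain ⟨z, -, hz⟩ := exists_le_of_sum_le hne h3
  exact ⟨z.1, z.2, hz⟩

open Classical in
theorem hit_ind {κ U : Type} [Fintype U] [Nonempty U] {l j0 : ℕ} (hl : 0 < l) (R : Finset κ)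
    (K : κ → Finset (Fin l)) (hK : ∀ k ∈ R, 2 * j0 ≤ (K k).card) (col : κ → Fin l → U)
    (h1 : (j0 : ℝ) / (l * Fintype.card U) ≤ 1) (j : ℕ) (hj : j ≤ j0) :
    ∃ (J : Finset (Fin l)) (σ : Fin l → U), J.card ≤ j ∧
      ((R.filter fun k => ¬ ∃ τ ∈ J, τ ∈ K k ∧ col k τ = σ τ).card : ℝ) ≤
        R.card * (1 - (j0 : ℝ) / (l * Fintype.card U)) ^ j := by
  induction j with
  | zero =>
    refine ⟨∅, fun _ => Classical.arbitrary U, by simp, ?_⟩
    rw [pow_zero, mul_one]
    exact_mod_cast card_filter_le _ _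
  | succ j ih =>
    obtain ⟨J, σ, hJ, hR⟩ := ih (by omega)
    set R' := R.filter fun k => ¬ ∃ τ ∈ J, τ ∈ K k ∧ col k τ = σ τ with hR'
    obtain ⟨τ, u, hτ⟩ := hit_avg (j0 := j0) hl R' K col J fun k hk => by
      have := hK k (mem_filter.1 hk).1
      omega
    refine ⟨insert τ J, fun t => if t ∈ J then σ t else u,
      (card_insert_le _ _).trans (by omega), ?_⟩
    set F := R'.filter fun k => τ ∉ J ∧ τ ∈ K k ∧ col k τ = u with hF
    have hsub : (R.filter fun k => ¬ ∃ t ∈ insert τ J, t ∈ K k ∧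
        col k t = if t ∈ J then σ t else u) ⊆ R' \ F := by
      intro k hk
      obtain ⟨hk1, hk2⟩ := mem_filter.1 hk
      refine mem_sdiff.2 ⟨mem_filter.2 ⟨hk1, ?_⟩, fun hkF => ?_⟩
      · rintro ⟨t, ht, h2, h3⟩
        exact hk2 ⟨t, mem_insert_of_mem ht, h2, by rw [if_pos ht]; exact h3⟩
      · obtain ⟨-, h2, h3, h4⟩ := mem_filter.1 hkF
        exact hk2 ⟨τ, mem_insert_self _ _, h3, by rw [if_neg h2]; exact h4⟩
    have hc := card_le_card hsub
    have hc2 : (R' \ F).card + F.card = R'.card := card_sdiff_add_card_eq_card (filter_subset _ _)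
    have hc3 : ((R' \ F).card : ℝ) + F.card = R'.card := by exact_mod_cast hc2
    have hc4 := mul_le_mul_of_nonneg_right hR (sub_nonneg.2 h1)
    refine (Nat.cast_le.2 hc).trans ?_
    rw [pow_succ, ← mul_assoc]
    refine le_trans ?_ hc4
    rw [mul_sub, mul_one]
    linarith

/-- Induction on `j`: while fewer than `j0` cells are used, every remaining `k` has at least `j0`
unused cells in `K k`; among the `l * card U` pairs (cell, colour) one with an unused cell serves a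
share `j0 / (l * card U)` of the remaining elements. -/
theorem hit {κ U : Type} [Fintype U] [Nonempty U] {l j0 j : ℕ} (R : Finset κ)
    (K : κ → Finset (Fin l)) (hK : ∀ k ∈ R, 2 * j0 ≤ (K k).card) (col : κ → Fin l → U)
    (hj : j ≤ j0) (hlt : (R.card : ℝ) * (1 - (j0 : ℝ) / (l * Fintype.card U)) ^ j < 1) :
    ∃ (J : Finset (Fin l)) (σ : Fin l → U), J.card ≤ j ∧
      ∀ k ∈ R, ∃ τ ∈ J, τ ∈ K k ∧ col k τ = σ τ := by
  classical
  rcases R.eq_empty_or_nonempty with rfl | ⟨k0, hk0⟩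
  · exact ⟨∅, fun _ => Classical.arbitrary U, by simp, by simp⟩
  have hl0 : 2 * j0 ≤ l := (hK k0 hk0).trans (by simpa using card_le_univ (K k0))
  have hRc : (1 : ℝ) ≤ R.card := by exact_mod_cast card_pos.2 ⟨k0, hk0⟩
  rcases Nat.eq_zero_or_pos l with rfl | hl
  · simp at hlt
    rw [hlt] at hk0
    simp at hk0
  have hU : 1 ≤ Fintype.card U := Fintype.card_pos
  have h1 : (j0 : ℝ) / (l * Fintype.card U) ≤ 1 := by
    refine div_le_one_of_le₀ ?_ (by positivity)
    have : j0 ≤ l * Fintype.card U := le_trans (by omega) (Nat.le_mul_of_pos_right l hU)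
    exact_mod_cast this
  obtain ⟨J, σ, hJ, hR⟩ := hit_ind hl R K hK col h1 j hj
  refine ⟨J, σ, hJ, fun k hk => ?_⟩
  by_contra hn
  have h2 := hR.trans_lt hlt
  have h3 := card_pos.2 ⟨k, (mem_filter.2 ⟨hk, hn⟩ :
    k ∈ R.filter fun k => ¬ ∃ τ ∈ J, τ ∈ K k ∧ col k τ = σ τ)⟩
  have h4 := Nat.cast_lt_one.1 h2
  omega

end Pool.Agent.Work.MP_b5d674_co.Q
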