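import Pool.Agent.Work.MP_b5d674_co.Q.Defs

/-! At most one family is killed by few cells. -/

namespace Pool.Agent.Work.MP_b5d674_co.Q

open Finset

variable {ι : Type} [Fintype ι] [DecidableEq ι]

lemma one_sum_le {l : ℕ} (Q : Fin l → Finset ι) (hd : ∀ τ τ', τ ≠ τ' → Disjoint (Q τ) (Q τ'))
    (C : Finset (Fin l)) (X : Finset ι) :
    ∑ τ ∈ C, (Q τ ∩ X).card = (C.biUnion Q ∩ X).card := by
  rw [Finset.biUnion_inter, Finset.card_biUnion]
  intro τ _ τ' _ hne
  exact (hd τ τ' hne).mono Finset.inter_subset_left Finset.inter_subset_left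

lemma one_cell {n l m D h : ℕ} (Q : Fin l → Finset ι) (p : Fin n → ι → Bool)
    (B : Bool → Finset ι) (k k0 : Fin n) (τ : Fin l) (h1 : ¬ Kills Q p m D h B k τ)
    (h0 : ¬ Kills Q p m D h B k0 τ) :
    (Q τ).card + (Q τ ∩ dif (p k) (p k0)).card ≤
      2 * ((Q τ ∩ B true).card + (Q τ ∩ B false).card) + 2 * h := by
  unfold Kills at h1 h0
  push Not at h1 h0
  obtain ⟨S', g1, s1⟩ := h1
  obtain ⟨S, g0, s0⟩ := h0
  have e0 := g0.2.2.1 τ
  have e1 := g1.2.2.2 τ k0
  have key : (S ∩ Q τ).card + (S' ∩ (Q τ ∩ dif (p k) (p k0))).card ≤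
      (Q τ ∩ B true).card + (Q τ ∩ B false).card := by
    rw [← Finset.card_union_add_card_inter (S ∩ Q τ), ← Finset.card_union_add_card_inter (Q τ ∩ B true)]
    refine Nat.add_le_add (Finset.card_le_card ?_) (Finset.card_le_card ?_)
    · intro i hi
      rcases Finset.mem_union.1 hi with hi | hi
      · have hq := (Finset.mem_inter.1 hi).2
        have hb := (Finset.mem_filter.1 (s0 hi)).2
        cases hp : p k0 i <;> rw [hp] at hb <;> simp [hq, hb]
      · have hs := (Finset.mem_inter.1 hi).1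
        have hq := (Finset.mem_inter.1 (Finset.mem_inter.1 hi).2).1
        have hb := (Finset.mem_filter.1 (s1 (Finset.mem_inter.2 ⟨hs, hq⟩))).2
        cases hp : p k i <;> rw [hp] at hb <;> simp [hq, hb]
    · intro i hi
      obtain ⟨hi0, hi1⟩ := Finset.mem_inter.1 hi
      have hq := (Finset.mem_inter.1 hi0).2
      have hb0 := (Finset.mem_filter.1 (s0 hi0)).2
      have hs := (Finset.mem_inter.1 hi1).1
      have hn := (Finset.mem_filter.1 (Finset.mem_inter.1 (Finset.mem_inter.1 hi1).2).2).2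
      have hb1 := (Finset.mem_filter.1 (s1 (Finset.mem_inter.2 ⟨hs, hq⟩))).2
      cases hp : p k i <;> cases hp0 : p k0 i <;> rw [hp] at hb1 hn <;> rw [hp0] at hb0 hn <;>
        simp_all
  omega

/-- Step 2 (a) of the paper.  If `k ≠ k'` both have fewer than `2 j0` killing cells, a set `C` of
at least `l - 4 j0` cells kills neither.  In such a cell take good `S`, `S'`:
`|B true ∩ Q| + |B false ∩ Q| ≥ |blk (p k) ∩ Q| + |blk (p k') ∩ N ∩ Q|`, so twice this is at least
`c + |N ∩ Q| - 2h`.  Sum over `C`, use `|N| ≤ ∑ |N ∩ Q| + (card ι - |C| c)` and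
`card ι ≤ |N| + m`. -/
theorem one_bad {n l c m D h j0 : ℕ} (Q : Fin l → Finset ι) (hQ : ∀ τ, (Q τ).card = c)
    (hd : ∀ τ τ', τ ≠ τ' → Disjoint (Q τ) (Q τ')) (p : Fin n → ι → Bool) (hn : 0 < n)
    (c1 : 3 * m < 2 * ((l - 4 * j0) * (c - h))) (B : Bool → Finset ι)
    (hb : (B true).card + (B false).card ≤ m) :
    ∃ k0 : Fin n, ∀ k, k ≠ k0 → ∃ K : Finset (Fin l), 2 * j0 ≤ K.card ∧
      ∀ τ ∈ K, Kills Q p m D h B k τ := by
  classical
  by_cases hall : ∀ k, 2 * j0 ≤ (univ.filter fun τ => Kills Q p m D h B k τ).card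
  · exact ⟨⟨0, hn⟩, fun k _ => ⟨_, hall k, fun τ hτ => (Finset.mem_filter.1 hτ).2⟩⟩
  push Not at hall
  obtain ⟨k0, hk0⟩ := hall
  refine ⟨k0, fun k hk => ⟨univ.filter fun τ => Kills Q p m D h B k τ, ?_,
    fun τ hτ => (Finset.mem_filter.1 hτ).2⟩⟩
  by_contra hlt
  push Not at hlt
  set K := univ.filter fun τ => Kills Q p m D h B k τ with hK
  set K0 := univ.filter fun τ => Kills Q p m D h B k0 τ with hK0
  set C : Finset (Fin l) := (K ∪ K0)ᶜ with hC
  have hCc : l - 4 * j0 ≤ C.card := by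
    have h1 : (K ∪ K0).card ≤ K.card + K0.card := Finset.card_union_le _ _
    have h2 : C.card = l - (K ∪ K0).card := by
      rw [hC, Finset.card_compl, Fintype.card_fin]
    omega
  have hnk : ∀ τ ∈ C, ¬ Kills Q p m D h B k τ ∧ ¬ Kills Q p m D h B k0 τ := by
    intro τ hτ
    rw [hC, Finset.mem_compl, Finset.mem_union, not_or, hK, hK0] at hτ
    simpa using hτ
  have hCpos : 0 < C.card := by
    rcases Nat.eq_zero_or_pos (l - 4 * j0) with h0 | h0
    · rw [h0] at c1
      omega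
    · omega
  obtain ⟨τ0, hτ0⟩ := Finset.card_pos.1 hCpos
  have hG4 : Fintype.card ι ≤ (dif (p k) (p k0)).card + m := by
    have h1 := (hnk τ0 hτ0).1
    unfold Kills at h1
    push Not at h1
    obtain ⟨S, g, _⟩ := h1
    exact (g.2.1 k0 (Ne.symm hk)).2
  set N := dif (p k) (p k0) with hN
  have hsum : ∑ τ ∈ C, ((Q τ).card + (Q τ ∩ N).card) ≤
      ∑ τ ∈ C, (2 * ((Q τ ∩ B true).card + (Q τ ∩ B false).card) + 2 * h) :=
    Finset.sum_le_sum fun τ hτ => one_cell Q p B k k0 τ (hnk τ hτ).1 (hnk τ hτ).2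
  have hU : (C.biUnion Q).card = C.card * c := by
    rw [Finset.card_biUnion fun τ _ τ' _ hne => hd τ τ' hne]
    simp [hQ]
  rw [Finset.sum_add_distrib, Finset.sum_add_distrib, ← Finset.mul_sum, Finset.sum_add_distrib,
    one_sum_le Q hd, one_sum_le Q hd, one_sum_le Q hd] at hsum
  simp only [hQ, Finset.sum_const, smul_eq_mul] at hsum
  have ht : (C.biUnion Q ∩ B true).card ≤ (B true).card :=
    Finset.card_le_card Finset.inter_subset_right
  have hf : (C.biUnion Q ∩ B false).card ≤ (B false).card :=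
    Finset.card_le_card Finset.inter_subset_right
  have hNu : (C.biUnion Q).card + N.card ≤ (C.biUnion Q ∩ N).card + Fintype.card ι := by
    rw [← Finset.card_union_add_card_inter, add_comm]
    exact Nat.add_le_add_left (Finset.card_le_univ _) _
  rw [hU] at hNu
  have hfin : 2 * (C.card * c) ≤ 3 * m + 2 * (C.card * h) := by
    have : C.card * (2 * h) = 2 * (C.card * h) := by ring
    omega
  have h3 : (l - 4 * j0) * (c - h) ≤ C.card * (c - h) := Nat.mul_le_mul_right _ hCc
  have h4 : C.card * (c - h) = C.card * c - C.card * h := Nat.mul_sub _ _ _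
  omega

end Pool.Agent.Work.MP_b5d674_co.Q
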