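import Pool.Agent.Work.MP_b5d674_co.Q.Hit
import Pool.Agent.Work.MP_b5d674_co.Q.One

/-! The covering game. -/

namespace Pool.Agent.Work.MP_b5d674_co.Q

open Finset

variable {ι : Type} [Fintype ι] [DecidableEq ι]

/-- The word built from the signs `g` against the blocked sets `B` differs from the signs `q` at
every position of `S`. -/
def key_Miss (B : Bool → Finset ι) (g q : ι → Bool) (S : Finset ι) : Prop :=
  ∀ i ∈ S, i ∈ B (q i) ∨ (g i ≠ q i ∧ i ∉ B (g i))

/-- The scheme and step 0. -/
theorem key_scheme {α κ : Type} [Fintype α] [DecidableEq α]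
    (hα : Fintype.card ι < Fintype.card α) (h3 : 3 ≤ Fintype.card α) {m : ℕ}
    (p : κ → ι → Bool) (T : Finset (κ × Finset ι)) (hm : ∀ z ∈ T, z.2.card = m)
    (hA : ∀ B : Bool → Finset ι, (B true).card + (B false).card ≤ m → ∃ g : ι → Bool,
      ∀ z ∈ T, ∀ z' ∈ T, key_Miss B g (p z.1) z.2 → key_Miss B g (p z'.1) z'.2 → z = z') :
    ∃ H : Finset (ι → α),
      (∀ F ⊆ H, F.card < T.card → ∃ t : ι → α, ∀ e ∈ F, ∃ i, e i = t i) ∧
      ∀ C : Finset (ι × α), (∀ e ∈ H, ∃ i, (i, e i) ∈ C) → Fintype.card ι < C.card := by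
  classical
  obtain ⟨f⟩ : Nonempty (Option Bool ↪ α) :=
    Function.Embedding.nonempty_of_card_le (by simpa using h3)
  let w : κ × Finset ι → ι → α := fun z i => if i ∈ z.2 then f (some (p z.1 i)) else f none
  refine ⟨univ.filter fun e => (T.filter fun z => ∀ i, e i ≠ w z i).card ≤ 1, ?_, ?_⟩
  · intro F hF hlt
    have h1 : (F.biUnion fun e => T.filter fun z => ∀ i, e i ≠ w z i).card < T.card := by
      refine lt_of_le_of_lt (card_biUnion_le.trans ?_) hlt
      refine (sum_le_card_nsmul _ _ 1 fun e he => (mem_filter.1 (hF he)).2).trans (by simp)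
    obtain ⟨z, hz, hz'⟩ := exists_mem_notMem_of_card_lt_card h1
    refine ⟨w z, fun e he => ?_⟩
    by_contra hc
    exact hz' (mem_biUnion.2 ⟨e, he, mem_filter.2 ⟨hz, fun i hi => hc ⟨i, hi⟩⟩⟩)
  · intro C hC
    by_contra hlt
    have hle : C.card ≤ Fintype.card ι := not_lt.1 hlt
    have hu : ∀ i : ι, ∃ a : α, (i, a) ∉ C := by
      intro i
      by_contra hc
      have h1 : (univ : Finset α).card ≤ C.card :=
        card_le_card_of_injOn (fun a => (i, a)) (fun a _ => by
          by_contra h
          exact hc ⟨a, h⟩) (fun a _ b _ h => (Prod.ext_iff.1 h).2)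
      rw [card_univ] at h1
      omega
    choose u hu using hu
    let A : Option Bool → Finset ι := fun s => univ.filter fun i => (i, f s) ∈ C
    have hA' : ∀ s i, i ∈ A s ↔ (i, f s) ∈ C := fun s i => by simp [A]
    have hsum : (A none).card + ((A (some true)).card + (A (some false)).card) ≤ C.card := by
      have h1 : ((univ : Finset (Option Bool)).sigma A).card ≤ C.card := by
        refine card_le_card_of_injOn (fun x => (x.2, f x.1)) (fun x hx => ?_) ?_
        · exact (hA' _ _).1 (mem_sigma.1 hx).2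
        · rintro ⟨s, i⟩ - ⟨s', i'⟩ - h
          obtain ⟨h1, h2⟩ := Prod.ext_iff.1 h
          obtain rfl : s = s' := f.injective h2
          obtain rfl : i = i' := h1
          rfl
      rw [card_sigma, Fintype.sum_option, Fintype.sum_bool] at h1
      exact h1
    by_cases h0 : (A none).card + m < Fintype.card ι
    · obtain ⟨i, hi⟩ := hC (fun i => if i ∈ A none then u i else f none) (by
        refine mem_filter.2 ⟨mem_univ _, ?_⟩
        rw [filter_eq_empty_iff.2, card_empty]
        · omega
        · intro z hz hmiss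
          have h1 : (univ : Finset ι) ⊆ A none ∪ z.2 := by
            intro i _
            by_contra hc
            rw [mem_union, not_or] at hc
            exact hmiss i (by simp only [w, if_neg hc.1, if_neg hc.2])
          have h2 := (card_le_card h1).trans (card_union_le _ _)
          rw [card_univ, hm z hz] at h2
          omega)
      by_cases h1 : i ∈ A none
      · rw [if_pos h1] at hi
        exact hu i hi
      · rw [if_neg h1] at hi
        exact h1 ((hA' _ _).2 hi)
    · obtain ⟨g, hg⟩ := hA (fun s => A (some s)) (by omega)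
      obtain ⟨i, hi⟩ := hC (fun i => if i ∈ A (some (g i)) then
          (if i ∈ A (some (!g i)) then u i else f (some (!g i))) else f (some (g i))) (by
        refine mem_filter.2 ⟨mem_univ _, card_le_one.2 ?_⟩
        have key : ∀ z : κ × Finset ι, (∀ i, (if i ∈ A (some (g i)) then
            (if i ∈ A (some (!g i)) then u i else f (some (!g i))) else f (some (g i))) ≠ w z i) →
            key_Miss (fun s => A (some s)) g (p z.1) z.2 := by
          intro z hz i hi
          have h1 := hz i
          simp only [w, if_pos hi] at h1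
          by_cases h2 : i ∈ A (some (g i))
          · left
            rw [if_pos h2] at h1
            by_cases h4 : p z.1 i = g i
            · rw [h4]
              exact h2
            · have h5 : p z.1 i = !g i := Bool.eq_not_of_ne h4
              by_contra h6
              rw [h5] at h6 h1
              exact h1 (if_neg h6)
          · right
            rw [if_neg h2] at h1
            exact ⟨fun h => h1 (by rw [h]), h2⟩
        intro z hz z' hz'
        rw [mem_filter] at hz hz'
        exact hg z hz.1 z' hz'.1 (key z hz.2) (key z' hz'.2))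
      by_cases h1 : i ∈ A (some (g i))
      · rw [if_pos h1] at hi
        by_cases h2 : i ∈ A (some (!g i))
        · rw [if_pos h2] at hi
          exact hu i hi
        · rw [if_neg h2] at hi
          exact h2 ((hA' _ _).2 hi)
      · rw [if_neg h1] at hi
        exact h1 ((hA' _ _).2 hi)

/-- Exclusion. -/
theorem key_excl {D : ℕ} (B : Bool → Finset ι) {g g' q q' : ι → Bool} {S S' J : Finset ι}
    (hJ : J.card ≤ 1) (hg : ∀ i ∉ J, g i = g' i) (h : key_Miss B g q S)
    (h' : key_Miss B g' q' S') (hS : (dif q q').card + D ≤ 2 * (S ∩ dif q q').card)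
    (hS' : (dif q' q).card + D ≤ 2 * (S' ∩ dif q' q).card) :
    D ≤ (B true ∩ B false).card + 1 := by
  have e : dif q' q = dif q q' := by
    ext i
    simp only [dif, mem_filter, mem_univ, true_and]
    exact ne_comm
  rw [e] at hS'
  have h1 : (S ∩ dif q q') ∩ (S' ∩ dif q q') ⊆ (B true ∩ B false) ∪ J := by
    intro i hi
    simp only [mem_inter, dif, mem_filter, mem_univ, true_and] at hi
    by_contra hc
    rw [mem_union, not_or, mem_inter] at hc
    have a := h i hi.1.1
    have b := h' i hi.2.1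
    have c := hi.1.2
    have d := hc.1
    rw [← hg i hc.2] at b
    revert a b c d
    cases q i <;> cases q' i <;> cases g i <;> simp <;> tauto
  have h2 : (S ∩ dif q q') ∪ (S' ∩ dif q q') ⊆ dif q q' :=
    union_subset inter_subset_right inter_subset_right
  have h3 := card_union_add_card_inter (S ∩ dif q q') (S' ∩ dif q q')
  have h4 := (card_le_card h1).trans (card_union_le _ _)
  have h5 := card_le_card h2
  omega

theorem key_blk (B : Bool → Finset ι) (q : ι → Bool) : blk B q ⊆ B true ∪ B false := by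
  intro i hi
  simp only [blk, mem_filter, mem_univ, true_and] at hi
  rw [mem_union]
  revert hi
  cases q i
  · exact Or.inr
  · exact Or.inl

/-- Step 1. -/
theorem key_small {κ : Type} {m D : ℕ} (p : κ → ι → Bool) (T : Finset (κ × Finset ι))
    (hm : ∀ z ∈ T, z.2.card = m)
    (hD : ∀ z ∈ T, ∀ k', k' ≠ z.1 →
      (dif (p z.1) (p k')).card + D ≤ 2 * (z.2 ∩ dif (p z.1) (p k')).card)
    (B : Bool → Finset ι) (hb : (B true).card + (B false).card ≤ m)
    (hd : (B true ∩ B false).card + 2 ≤ D) :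
    ∃ g : ι → Bool, ∀ z ∈ T, ∀ z' ∈ T,
      key_Miss B g (p z.1) z.2 → key_Miss B g (p z'.1) z'.2 → z = z' := by
  by_contra hc
  have h2 : ∀ g : ι → Bool, ∃ z ∈ T, ∃ z' ∈ T,
      key_Miss B g (p z.1) z.2 ∧ key_Miss B g (p z'.1) z'.2 ∧ z ≠ z' := by
    intro g
    by_contra h
    refine hc ⟨g, fun z hz z' hz' a b => ?_⟩
    by_contra e
    exact h ⟨z, hz, z', hz', a, b, e⟩
  have ex : ∀ (J : Finset ι) (g g' : ι → Bool), J.card ≤ 1 → (∀ i ∉ J, g i = g' i) →
      ∀ z ∈ T, ∀ z' ∈ T, key_Miss B g (p z.1) z.2 → key_Miss B g' (p z'.1) z'.2 →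
      z.1 = z'.1 := by
    intro J g g' hJ hg z hz z' hz' a b
    by_contra e
    have := key_excl B hJ hg a b (hD z hz _ (Ne.symm e)) (hD z' hz' _ e)
    omega
  have walk : ∀ (A : Finset ι) (g g' : ι → Bool), (∀ i ∉ A, g i = g' i) →
      ∀ z ∈ T, ∀ z' ∈ T, key_Miss B g (p z.1) z.2 → key_Miss B g' (p z'.1) z'.2 →
      z.1 = z'.1 := by
    intro A
    induction A using Finset.induction_on with
    | empty => exact fun g g' hg => ex ∅ g g' (by simp) hg
    | insert a A _ ih =>
      intro g g' hg z hz z' hz' x y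
      obtain ⟨z₁, hz₁, -, -, x₁, -, -⟩ := h2 (Function.update g' a (g a))
      refine (ih g _ (fun i hi => ?_) z hz z₁ hz₁ x x₁).trans
        (ex {a} _ g' (by simp) (fun i hi => ?_) z₁ hz₁ z' hz' x₁ y)
      · by_cases e : i = a
        · rw [e, Function.update_self]
        · rw [Function.update_of_ne e]
          exact hg i (by simp [e, hi])
      · exact Function.update_of_ne (by simpa using hi) _ _
  obtain ⟨z₀, hz₀, -, -, x₀, -, -⟩ := h2 fun _ => true
  obtain ⟨z, hz, z', hz', a, b, e⟩ := h2 (p z₀.1)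
  have one : ∀ z ∈ T, key_Miss B (p z₀.1) (p z.1) z.2 → z = (z₀.1, blk B (p z₀.1)) := by
    intro z hz a
    have e1 : z.1 = z₀.1 := walk univ _ _ (by simp) z hz z₀ hz₀ a x₀
    refine Prod.ext e1 (eq_of_subset_of_card_le (fun i hi => ?_) ?_)
    · rw [e1] at a
      simp only [blk, mem_filter, mem_univ, true_and]
      exact (a i hi).resolve_right fun h => h.1 rfl
    · rw [hm z hz]
      exact ((card_le_card (key_blk B _)).trans (card_union_le _ _)).trans hb
  exact e ((one z hz a).trans (one z' hz' b).symm)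

/-- Step 2. -/
theorem key_large {U : Type} [Fintype U] [Nonempty U] {n l c m D h j0 : ℕ}
    (Q : Fin l → Finset ι) (hQ : ∀ τ, (Q τ).card = c)
    (hd : ∀ τ τ', τ ≠ τ' → Disjoint (Q τ) (Q τ')) (p : Fin n → ι → Bool) (hn : 0 < n)
    (col : Fin n → Fin l → U) (pc : Fin l → U → ι → Bool)
    (hcol : ∀ k τ, ∀ i ∈ Q τ, p k i = pc τ (col k τ) i) (M : ℕ → ℝ)
    (hL : ∀ (y : ι → Bool) (δ : ℕ), δ ≤ m →
      ((univ.filter fun k => m ≤ ag y (p k) + δ).card : ℝ) ≤ M δ)
    (c1 : 3 * m < 2 * ((l - 4 * j0) * (c - h)))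
    (c2 : ∀ d : ℕ, D ≤ d + 1 → 2 * d ≤ m → ∃ j ≤ j0, j * c < d ∧
      M (2 * d) * (1 - (j0 : ℝ) / (l * Fintype.card U)) ^ j < 1)
    (B : Bool → Finset ι) (hb : (B true).card + (B false).card ≤ m)
    (hD : D ≤ (B true ∩ B false).card + 1) :
    ∃ g : ι → Bool, ∀ k S, Good Q p m D h k S → ¬ key_Miss B g (p k) S := by
  classical
  have hU := card_union_add_card_inter (B true) (B false)
  have hd2 : 2 * (B true ∩ B false).card ≤ m := by
    have a := card_le_card (inter_subset_left (s₁ := B true) (s₂ := B false))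
    have b := card_le_card (inter_subset_right (s₁ := B true) (s₂ := B false))
    omega
  obtain ⟨j, hj, hjc, hM⟩ := c2 _ hD hd2
  obtain ⟨k0, hk0⟩ := one_bad Q hQ hd p hn c1 B hb (D := D)
  choose! K hK1 hK2 using hk0
  let y : ι → Bool := fun i => if i ∈ B (p k0 i) then p k0 i else !p k0 i
  let R : Finset (Fin n) :=
    (univ.filter fun k => m ≤ ag y (p k) + 2 * (B true ∩ B false).card).erase k0
  have hl : 4 * j0 < l := by
    by_contra hc
    rw [Nat.sub_eq_zero_of_le (not_lt.1 hc)] at c1
    omega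
  have hpos : (0 : ℝ) ≤ 1 - (j0 : ℝ) / (l * Fintype.card U) := by
    have h1 : j0 ≤ l * Fintype.card U :=
      (by omega : j0 ≤ l).trans (Nat.le_mul_of_pos_right _ Fintype.card_pos)
    have h2 : (j0 : ℝ) ≤ l * Fintype.card U := by exact_mod_cast h1
    exact sub_nonneg.2 (div_le_one_of_le₀ h2 (by positivity))
  have hR : (R.card : ℝ) ≤ M (2 * (B true ∩ B false).card) :=
    le_trans (by exact_mod_cast card_erase_le) (hL y _ hd2)
  obtain ⟨J, σ, hJ, hhit⟩ := hit R K (fun k hk => hK1 k (mem_erase.1 hk).1) col hj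
    (lt_of_le_of_lt (mul_le_mul_of_nonneg_right hR (pow_nonneg hpos _)) hM)
  have hW : (J.biUnion Q).card < (B true ∩ B false).card := by
    refine lt_of_le_of_lt (card_biUnion_le.trans ?_) hjc
    rw [sum_congr rfl fun τ _ => hQ τ, sum_const, smul_eq_mul]
    exact Nat.mul_le_mul_right _ hJ
  let g : ι → Bool := fun i =>
    if hi : ∃ τ ∈ J, i ∈ Q τ then pc hi.choose (σ hi.choose) i else p k0 i
  have g1 : ∀ i ∉ J.biUnion Q, g i = p k0 i := fun i hi => dif_neg fun h => hi (mem_biUnion.2 h)
  have g2 : ∀ τ ∈ J, ∀ i ∈ Q τ, g i = pc τ (σ τ) i := by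
    intro τ hτ i hi
    have h1 : ∃ τ ∈ J, i ∈ Q τ := ⟨τ, hτ, hi⟩
    have h2 : h1.choose = τ := by
      by_contra e
      exact disjoint_left.1 (hd _ _ e) h1.choose_spec.2 hi
    simp only [g, dif_pos h1, h2]
  refine ⟨g, fun k S hS hmiss => ?_⟩
  by_cases e : k = k0
  · have h1 : S ⊆ J.biUnion Q ∪ (B true ∪ B false) := by
      intro i hi
      by_cases hw : i ∈ J.biUnion Q
      · exact mem_union_left _ hw
      · refine mem_union_right _ (key_blk B (p k) ?_)
        simp only [blk, mem_filter, mem_univ, true_and]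
        exact (hmiss i hi).resolve_right fun h => h.1 (by rw [g1 i hw, e])
    have h2 := (card_le_card h1).trans (card_union_le _ _)
    rw [hS.1] at h2
    omega
  · have h1 : S ⊆ (univ.filter fun i => y i = p k i) ∪ (J.biUnion Q ∪ (B true ∩ B false)) := by
      intro i hi
      by_contra hc
      simp only [mem_union, not_or, mem_filter, mem_univ, true_and, mem_inter] at hc
      have a := hmiss i hi
      rw [g1 i hc.2.1] at a
      have b := hc.1
      have d := hc.2.2
      simp only [y] at b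
      revert a b d
      cases p k i <;> cases p k0 i <;> by_cases h1 : i ∈ B true <;> by_cases h2 : i ∈ B false <;>
        simp [h1, h2]
    have h2 := (card_le_card h1).trans
      ((card_union_le _ _).trans (Nat.add_le_add_left (card_union_le _ _) _))
    rw [hS.1] at h2
    have hk : k ∈ R := by
      refine mem_erase.2 ⟨e, mem_filter.2 ⟨mem_univ _, ?_⟩⟩
      unfold ag
      omega
    obtain ⟨τ, hτ, hτK, hσ⟩ := hhit k hk
    refine hK2 k e τ hτK S hS fun i hi => ?_
    rw [mem_inter] at hi
    simp only [blk, mem_filter, mem_univ, true_and]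
    exact (hmiss i hi.1).resolve_right fun h =>
      h.1 (by rw [g2 τ hτ i hi.2, ← hσ, hcol k τ i hi.2])

theorem key {U α : Type} [Fintype U] [Nonempty U] [Fintype α] [DecidableEq α]
    (hα : Fintype.card ι < Fintype.card α) (h3 : 3 ≤ Fintype.card α) {n l c m D h j0 : ℕ}
    (Q : Fin l → Finset ι) (hQ : ∀ τ, (Q τ).card = c)
    (hd : ∀ τ τ', τ ≠ τ' → Disjoint (Q τ) (Q τ')) (p : Fin n → ι → Bool) (hn : 0 < n)
    (col : Fin n → Fin l → U) (pc : Fin l → U → ι → Bool)
    (hcol : ∀ k τ, ∀ i ∈ Q τ, p k i = pc τ (col k τ) i) (M : ℕ → ℝ)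
    (hL : ∀ (y : ι → Bool) (δ : ℕ), δ ≤ m →
      ((univ.filter fun k => m ≤ ag y (p k) + δ).card : ℝ) ≤ M δ)
    (c1 : 3 * m < 2 * ((l - 4 * j0) * (c - h)))
    (c2 : ∀ d : ℕ, D ≤ d + 1 → 2 * d ≤ m → ∃ j ≤ j0, j * c < d ∧
      M (2 * d) * (1 - (j0 : ℝ) / (l * Fintype.card U)) ^ j < 1) :
    ∃ H : Finset (ι → α),
      (∀ F ⊆ H, F.card < (goods Q p m D h).card → ∃ t : ι → α, ∀ e ∈ F, ∃ i, e i = t i) ∧
      ∀ C : Finset (ι × α), (∀ e ∈ H, ∃ i, (i, e i) ∈ C) → Fintype.card ι < C.card := by
  have hG : ∀ z ∈ goods Q p m D h, Good Q p m D h z.1 z.2 := fun z hz => by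
    classical
    exact (mem_filter.1 hz).2
  refine key_scheme hα h3 p _ (fun z hz => (hG z hz).1) fun B hb => ?_
  by_cases hD : D ≤ (B true ∩ B false).card + 1
  · obtain ⟨g, hg⟩ := key_large Q hQ hd p hn col pc hcol M hL c1 c2 B hb hD
    exact ⟨g, fun z hz _ _ a _ => absurd a (hg _ _ (hG z hz))⟩
  · exact key_small p _ (fun z hz => (hG z hz).1) (fun z hz k' hk => ((hG z hz).2.1 k' hk).1)
      B hb (by omega)

end Pool.Agent.Work.MP_b5d674_co.Q
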