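import Pool.Agent.Work.MP_b5d674_co.Q.Bin

/-! Few supports are locally bad. -/

namespace Pool.Agent.Work.MP_b5d674_co.Q

open Finset

theorem card_cell (l c f : ℕ) (τ : Fin l) : (cell l c f τ).card = c := by
  unfold cell
  rw [Finset.card_image_of_injective _ (fun a b hab => by simpa using hab)]
  simp

theorem disjoint_cell (l c f : ℕ) (τ τ' : Fin l) (h : τ ≠ τ') :
    Disjoint (cell l c f τ) (cell l c f τ') := by
  rw [Finset.disjoint_left]
  intro x hx hx'
  unfold cell at hx hx'
  obtain ⟨a, -, rfl⟩ := Finset.mem_image.1 hx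
  obtain ⟨b, -, hb⟩ := Finset.mem_image.1 hx'
  simp only [Sum.inl.injEq, Prod.mk.injEq] at hb
  exact h hb.1.symm

/-- The sets to test. -/
def locb_set {l c f P : ℕ} (π : Fin P → Fin c → Bool) (ω : Om l P f)
    (z : Fin l × Option (Fin P)) : Finset (Pos l c f) :=
  z.2.elim (cell l c f z.1) fun u =>
    cell l c f z.1 ∩ dif (pat π ω) (pat π ((fun _ => u, ω.2) : Om l P f))

theorem locb_card {l c f P : ℕ} (π : Fin P → Fin c → Bool) (ω : Om l P f)
    (z : Fin l × Option (Fin P)) : (locb_set π ω z).card ≤ c := by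
  obtain ⟨τ, _ | u⟩ := z
  · exact (card_cell l c f τ).le
  · exact (Finset.card_le_card Finset.inter_subset_left).trans (card_cell l c f τ).le

theorem locb_eq {l c f P : ℕ} (π : Fin P → Fin c → Bool) (ω ω' : Om l P f) (τ : Fin l) :
    cell l c f τ ∩ dif (pat π ω) (pat π ω') = locb_set π ω (τ, some (ω'.1 τ)) := by
  show _ = cell l c f τ ∩ dif (pat π ω) (pat π ((fun _ => ω'.1 τ, ω.2) : Om l P f))
  ext x
  simp only [Finset.mem_inter, and_congr_right_iff]
  intro hx
  unfold cell at hx
  obtain ⟨a, -, rfl⟩ := Finset.mem_image.1 hx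
  unfold dif
  rw [Finset.mem_filter, Finset.mem_filter]
  exact Iff.rfl

theorem locb_cover {l c f P h : ℕ} (π : Fin P → Fin c → Bool) (ω : Om l P f)
    (S : Finset (Pos l c f)) (hS : ¬ Loc (cell l c f) (pat π) h ω S) :
    ∃ z, 2 * (S ∩ locb_set π ω z).card + h < (locb_set π ω z).card := by
  by_contra hn
  push Not at hn
  refine hS ⟨fun τ => hn (τ, none), fun τ ω' => ?_⟩
  rw [locb_eq]
  exact hn _

open Classical in
/-- The set `cell τ ∩ dif (pat ω) (pat ω')` depends on `ω'` only through `ω'.1 τ`, so there are at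
most `l (P+1)` sets to test; union bound with `low_tail`. -/
theorem loc_bad {l c f P h m : ℕ} (π : Fin P → Fin c → Bool) (hc : 0 < c) {w : ℝ} (h1 : 1 ≤ w)
    (ω : Om l P f) :
    ((univ.filter fun S : Finset (Pos l c f) =>
        S.card = m ∧ ¬ Loc (cell l c f) (pat π) h ω S).card : ℝ) * w ^ m ≤
      l * (P + 1) * ((1 + w) ^ (l * c + f) * Real.exp (-((h : ℝ) ^ 2 / (2 * c)))) := by
  have hw : (0 : ℝ) ≤ w ^ m := by positivity
  have hsub : (univ.filter fun S : Finset (Pos l c f) =>
        S.card = m ∧ ¬ Loc (cell l c f) (pat π) h ω S) ⊆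
      (univ : Finset (Fin l × Option (Fin P))).biUnion fun z =>
        univ.filter fun S : Finset (Pos l c f) =>
          S.card = m ∧ 2 * (S ∩ locb_set π ω z).card + h < (locb_set π ω z).card := by
    intro S hS
    obtain ⟨hS1, hS2⟩ := (Finset.mem_filter.1 hS).2
    obtain ⟨z, hz⟩ := locb_cover π ω S hS2
    exact Finset.mem_biUnion.2 ⟨z, Finset.mem_univ _,
      Finset.mem_filter.2 ⟨Finset.mem_univ _, hS1, hz⟩⟩
  have h2 : ((univ.filter fun S : Finset (Pos l c f) =>
        S.card = m ∧ ¬ Loc (cell l c f) (pat π) h ω S).card : ℝ) ≤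
      ∑ z : Fin l × Option (Fin P), ((univ.filter fun S : Finset (Pos l c f) =>
          S.card = m ∧ 2 * (S ∩ locb_set π ω z).card + h < (locb_set π ω z).card).card : ℝ) := by
    exact_mod_cast (Finset.card_le_card hsub).trans Finset.card_biUnion_le
  refine (mul_le_mul_of_nonneg_right h2 hw).trans ?_
  rw [Finset.sum_mul]
  refine (Finset.sum_le_sum fun z _ =>
    low_tail (locb_set π ω z) (h := h) (m := m) hc (locb_card π ω z) h1).trans (le_of_eq ?_)
  rw [Finset.sum_const, Finset.card_univ, nsmul_eq_mul]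
  simp

end Pool.Agent.Work.MP_b5d674_co.Q
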