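import Pool.Agent.Work.MP_b5d674_co.Q.Defs

/-! The heaviest level. -/

namespace Pool.Agent.Work.MP_b5d674_co.Q

open Finset

theorem mode_var (r : ℕ) {w : ℝ} (h1 : 1 ≤ w) :
    ∑ j ∈ range (r + 1), ((r : ℝ) * (w / (1 + w)) - j) ^ 2 * (r.choose j * w ^ j)
      ≤ (1 + w) ^ r * (r / 4) := by
  have hw : (0 : ℝ) < 1 + w := by linarith
  have h := congrArg (Polynomial.eval (w / (1 + w))) (bernsteinPolynomial.variance ℝ r)
  simp only [Polynomial.eval_finsetSum, bernsteinPolynomial, Polynomial.eval_mul,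
    Polynomial.eval_pow, Polynomial.eval_sub, Polynomial.eval_X,
    Polynomial.eval_natCast, Polynomial.eval_one, nsmul_eq_mul] at h
  have e : (1 : ℝ) - w / (1 + w) = 1 / (1 + w) := by field_simp; ring
  have k : ∑ j ∈ range (r + 1), ((r : ℝ) * (w / (1 + w)) - j) ^ 2 * (r.choose j * w ^ j)
      = (1 + w) ^ r * ((r : ℝ) * (w / (1 + w)) * (1 - w / (1 + w))) := by
    rw [← h, mul_sum]
    refine sum_congr rfl fun j hj => ?_
    have hj' : j ≤ r := Nat.lt_succ_iff.1 (mem_range.1 hj)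
    have p : (1 + w) ^ r = (1 + w) ^ j * (1 + w) ^ (r - j) := by
      rw [← pow_add, Nat.add_sub_cancel' hj']
    have q1 : (1 + w) ^ j * (w / (1 + w)) ^ j = w ^ j := by
      rw [← mul_pow, mul_div_cancel₀ _ hw.ne']
    have q2 : (1 + w) ^ (r - j) * (1 / (1 + w)) ^ (r - j) = 1 := by
      rw [← mul_pow, mul_one_div_cancel hw.ne', one_pow]
    rw [e, p]
    calc _ = ((r : ℝ) * (w / (1 + w)) - j) ^ 2 * (r.choose j * ((1 + w) ^ j * (w / (1 + w)) ^ j)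
        * ((1 + w) ^ (r - j) * (1 / (1 + w)) ^ (r - j))) := by rw [q1, q2, mul_one]
      _ = _ := by ring
  rw [k]
  refine mul_le_mul_of_nonneg_left ?_ (pow_pos hw r).le
  have : (0 : ℝ) ≤ r := Nat.cast_nonneg r
  nlinarith [mul_nonneg this (sq_nonneg (w / (1 + w) - 1 / 2))]

theorem mode_card (n : ℕ) {a s : ℝ} (ha : 0 ≤ a) (hs : 0 ≤ s) :
    (((range n).filter fun j : ℕ => (a - j) ^ 2 ≤ s ^ 2).card : ℝ) ≤ 2 * s + 1 := by
  have hsub : ((range n).filter fun j : ℕ => (a - j) ^ 2 ≤ s ^ 2) ⊆ Icc ⌈a - s⌉₊ ⌊a + s⌋₊ := by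
    intro j hj
    have h := abs_le.1 (abs_le_of_sq_le_sq' (mem_filter.1 hj).2 hs |> abs_le.2)
    exact mem_Icc.2 ⟨Nat.ceil_le.2 (by linarith [h.2]), Nat.le_floor (by linarith [h.1])⟩
  have h1 := card_le_card hsub
  rw [Nat.card_Icc] at h1
  have h2 : (⌊a + s⌋₊ : ℝ) ≤ a + s := Nat.floor_le (by linarith)
  have h3 : a - s ≤ (⌈a - s⌉₊ : ℝ) := Nat.le_ceil _
  rcases le_total ⌈a - s⌉₊ (⌊a + s⌋₊ + 1) with h | h
  · have h4 : ((⌊a + s⌋₊ + 1 - ⌈a - s⌉₊ : ℕ) : ℝ) = ⌊a + s⌋₊ + 1 - ⌈a - s⌉₊ := by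
      rw [Nat.cast_sub h]; push_cast; ring
    have h5 := (Nat.cast_le (α := ℝ)).2 h1
    linarith
  · rw [Nat.sub_eq_zero_of_le h] at h1
    rw [Nat.le_zero.1 h1]
    push_cast
    linarith

/-- Chebyshev (`bernstein.variance`, variance at most `r/4`): the at most `3 √r` levels within `√r`
of the mean carry three quarters of the mass. -/
theorem mode (r : ℕ) (hr : 1 ≤ r) {w : ℝ} (h1 : 1 ≤ w) :
    ∃ m ≤ r, (m : ℝ) ≤ r * (w / (1 + w)) + √r ∧ (1 + w) ^ r ≤ 5 * √r * (r.choose m * w ^ m) := by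
  by_contra hc
  push Not at hc
  have hw : (0 : ℝ) < 1 + w := by linarith
  have hr' : (1 : ℝ) ≤ r := by exact_mod_cast hr
  have hs1 : (1 : ℝ) ≤ √r := Real.one_le_sqrt.2 hr'
  have hsq : (√r : ℝ) ^ 2 = r := Real.sq_sqrt (by linarith)
  have hZ : (0 : ℝ) < (1 + w) ^ r := pow_pos hw r
  set a : ℝ := r * (w / (1 + w)) with ha
  have ha0 : 0 ≤ a := by positivity
  have hnn : ∀ j : ℕ, (0 : ℝ) ≤ r.choose j * w ^ j := fun j => by positivity
  have htot : ∑ j ∈ range (r + 1), (r.choose j * w ^ j : ℝ) = (1 + w) ^ r := by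
    rw [add_comm 1 w, add_pow]
    exact sum_congr rfl fun j _ => by rw [one_pow, mul_one, mul_comm]
  have hvar := mode_var r h1
  rw [← ha] at hvar
  have hcard := mode_card (r + 1) ha0 (le_trans zero_le_one hs1)
  have hsplit := sum_filter_add_sum_filter_not (range (r + 1))
    (fun j : ℕ => (a - j) ^ 2 ≤ (√r : ℝ) ^ 2) (fun j => (r.choose j * w ^ j : ℝ))
  rw [htot] at hsplit
  have hout : (r : ℝ) * ∑ j ∈ (range (r + 1)).filter
      (fun j : ℕ => ¬ (a - j) ^ 2 ≤ (√r : ℝ) ^ 2), (r.choose j * w ^ j : ℝ)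
      ≤ (1 + w) ^ r * (r / 4) := by
    rw [mul_sum]
    refine le_trans (sum_le_sum fun j hj => ?_) (le_trans (sum_le_sum_of_subset_of_nonneg
      (filter_subset _ _) fun j _ _ => mul_nonneg (sq_nonneg _) (hnn j)) hvar)
    have := not_le.1 (mem_filter.1 hj).2
    rw [hsq] at this
    exact mul_le_mul_of_nonneg_right this.le (hnn j)
  have hin : 5 * √r * ∑ j ∈ (range (r + 1)).filter
      (fun j : ℕ => (a - j) ^ 2 ≤ (√r : ℝ) ^ 2), (r.choose j * w ^ j : ℝ)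
      ≤ (2 * √r + 1) * (1 + w) ^ r := by
    rw [mul_sum]
    refine le_trans (sum_le_card_nsmul _ _ ((1 + w) ^ r) fun j hj => ?_) ?_
    · obtain ⟨h2, h3⟩ := mem_filter.1 hj
      have h4 := (abs_le_of_sq_le_sq' h3 (le_trans zero_le_one hs1)).1
      exact (hc j (Nat.lt_succ_iff.1 (mem_range.1 h2)) (by linarith)).le
    · rw [nsmul_eq_mul]
      exact mul_le_mul_of_nonneg_right hcard hZ.le
  set I := ∑ j ∈ (range (r + 1)).filter
      (fun j : ℕ => (a - j) ^ 2 ≤ (√r : ℝ) ^ 2), (r.choose j * w ^ j : ℝ)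
  set O := ∑ j ∈ (range (r + 1)).filter
      (fun j : ℕ => ¬ (a - j) ^ 2 ≤ (√r : ℝ) ^ 2), (r.choose j * w ^ j : ℝ)
  set Z := (1 + w) ^ r
  have hO : O ≤ Z / 4 := by
    have : (r : ℝ) * O ≤ r * (Z / 4) := by linarith
    exact le_of_mul_le_mul_left this (by linarith)
  have hI : 3 * Z / 4 ≤ I := by linarith
  nlinarith [mul_le_mul_of_nonneg_left hI (le_trans zero_le_one hs1),
    mul_le_mul_of_nonneg_right hs1 hZ.le]

end Pool.Agent.Work.MP_b5d674_co.Q
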