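import Pool.Agent.Work.MP_b5d674_co.Q.Defs

/-! The parameters. -/

namespace Pool.Agent.Work.MP_b5d674_co.Q

open Finset

/-- `c = u`, `D = u^(t+2)`, `h = u/10`, `l = 99 r/(100 u)`, `j0 = l/40`. -/
theorem par_nat {t u r m : ℕ} (ht : 2 ≤ t) (hu : 1000 ≤ u) (hr : u ^ ((t + 1) ^ 2) ≤ r)
    (hm : (m : ℝ) ≤ r * ((1 + 1 / ((u ^ (t + 2) : ℕ) : ℝ)) / (1 + (1 + 1 / ((u ^ (t + 2) : ℕ) : ℝ))))
      + √r) :
    100 * m ≤ 51 * r ∧ 99 * r / (100 * u) * u ≤ r ∧ r ≤ 100 * (r - 99 * r / (100 * u) * u) ∧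
      3 * m < 2 * ((99 * r / (100 * u) - 4 * (99 * r / (100 * u) / 40)) * (u - u / 10)) := by
  have hu2 : u ^ 2 ≤ r := le_trans (Nat.pow_le_pow_right (by omega) (by nlinarith)) hr
  have h1 : 1000 * u ≤ r := by nlinarith
  have hD : 1000 ≤ u ^ (t + 2) := le_trans hu (Nat.le_self_pow (by omega) u)
  have hm' : 1000 * m ≤ 502 * r := by
    generalize u ^ (t + 2) = D at hD hm
    have hD' : (1000 : ℝ) ≤ D := by exact_mod_cast hD
    have hr' : (1000000 : ℝ) ≤ r := by exact_mod_cast (by omega : 1000000 ≤ r)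
    have hx0 : (0 : ℝ) ≤ 1 / (D : ℝ) := by positivity
    have hx1 : 1 / (D : ℝ) ≤ 1 / 1000 := one_div_le_one_div_of_le (by norm_num) hD'
    generalize 1 / (D : ℝ) = x at hx0 hx1 hm
    have e1 : (1 + x) / (1 + (1 + x)) ≤ 501 / 1000 := by
      rw [div_le_iff₀ (by linarith)]
      linarith
    have e2 : √(r : ℝ) ≤ r / 1000 := by
      rw [Real.sqrt_le_left (by positivity)]
      nlinarith
    have e3 := mul_le_mul_of_nonneg_left e1 (by positivity : (0 : ℝ) ≤ r)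
    have e4 : (1000 : ℝ) * m ≤ 502 * r := by linarith
    exact_mod_cast e4
  have l1 : 99 * r / (100 * u) * (100 * u) ≤ 99 * r := Nat.div_mul_le_self _ _
  have l2 : 99 * r < (100 * u) * (99 * r / (100 * u) + 1) := Nat.lt_mul_div_succ _ (by omega)
  generalize 99 * r / (100 * u) = l at l1 l2 ⊢
  have l3 : 100 * (l * u) ≤ 99 * r := by nlinarith
  have l4 : 99 * r < 100 * (l * u) + 100 * u := by nlinarith
  have l5 : (9 * l) * (9 * u) ≤ (10 * (l - 4 * (l / 40))) * (10 * (u - u / 10)) :=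
    Nat.mul_le_mul (by omega) (by omega)
  have l6 : 81 * (l * u) ≤ 100 * ((l - 4 * (l / 40)) * (u - u / 10)) := by nlinarith
  refine ⟨by omega, by omega, by omega, by omega⟩

end Pool.Agent.Work.MP_b5d674_co.Q
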