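import Pool.Agent.Work.MP_b5d674_co.Q.Defs

/-! The parameters. -/

namespace Pool.Agent.Work.MP_b5d674_co.Q

open Finset

theorem parb_theta (D w : ℝ) (hD : 0 < D) (hw : w = 1 + 1 / D) :
    0 ≤ (w - 1) / (w + 1) ∧ (w - 1) / (w + 1) ≤ 1 / (2 * D) := by
  have h1 : (w - 1) / (w + 1) = 1 / (2 * D + 1) := by
    subst hw
    field_simp
    ring
  rw [h1]
  exact ⟨by positivity, one_div_le_one_div_of_le (by positivity) (by linarith)⟩

theorem parb_exp (n : ℕ) (x : ℝ) (hx : 60 * 2 ^ n * 800 ^ (n + 1) * ((n + 1).factorial : ℝ) ≤ x) :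
    60 * (2 * x) ^ n * Real.exp (-(x / 800)) ≤ 1 := by
  have hf : (0 : ℝ) < ((n + 1).factorial : ℝ) := by exact_mod_cast Nat.factorial_pos _
  have hx0 : 0 < x := lt_of_lt_of_le (by positivity) hx
  have h1 : (x / 800) ^ (n + 1) / ((n + 1).factorial : ℝ) ≤ Real.exp (x / 800) :=
    Real.pow_div_factorial_le_exp _ (by positivity) _
  have h2 : 60 * (2 * x) ^ n ≤ (x / 800) ^ (n + 1) / ((n + 1).factorial : ℝ) := by
    rw [le_div_iff₀ hf, div_pow, le_div_iff₀ (by positivity), mul_pow, pow_succ x]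
    have := mul_le_mul_of_nonneg_left hx (pow_pos hx0 n).le
    calc 60 * (2 ^ n * x ^ n) * ((n + 1).factorial : ℝ) * 800 ^ (n + 1)
        = x ^ n * (60 * 2 ^ n * 800 ^ (n + 1) * ((n + 1).factorial : ℝ)) := by ring
      _ ≤ x ^ n * x := this
  rw [Real.exp_neg, ← div_eq_mul_inv, div_le_one (Real.exp_pos _)]
  exact h2.trans h1

/-- `θ = (w-1)/(w+1) ≤ 1/(2D)`, `l ≤ r/u`, `r < (2u)^A`; polynomials against `exp (u/400)`. -/
theorem par_real (t : ℕ) (ht : 2 ≤ t) : ∃ u0 : ℕ, ∀ u ≥ u0, ∀ r P : ℕ, ∀ w : ℝ,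
    u ^ ((t + 1) ^ 2) ≤ r → r < (u + 1) ^ ((t + 1) ^ 2) → P ≤ 2 * (u + 1) ^ t →
    w = 1 + 1 / ((u ^ (t + 2) : ℕ) : ℝ) →
    (u : ℝ) * ((w - 1) / (w + 1)) ≤ 1 / 2 ∧
    2 * ((99 * r / (100 * u) : ℕ) : ℝ) * (u * ((w - 1) / (w + 1))) ^ (t + 1) ≤ 1 ∧
    20 * √r * (((99 * r / (100 * u) : ℕ) : ℝ) * (P + 1)) *
      Real.exp (-((((u / 10 : ℕ) : ℝ)) ^ 2 / (2 * u))) ≤ 1 ∧
    14400 * ((u ^ (t + 2) : ℕ) : ℝ) ≤ √r := by
  obtain ⟨A, hA⟩ : ∃ A : ℕ, A = (t + 1) ^ 2 := ⟨_, rfl⟩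
  refine ⟨14400 ^ 2 + 2 * 2 ^ A + 60 * 2 ^ (3 * A) * 800 ^ (3 * A + 1) * (3 * A + 1).factorial,
    fun u hu r P w hr1 hr2 hP hw => ?_⟩
  rw [← hA] at hr1 hr2
  have hu1 : 14400 ^ 2 ≤ u := by omega
  have hu2 : 2 * 2 ^ A ≤ u := by omega
  have hu3 : 60 * 2 ^ (3 * A) * 800 ^ (3 * A + 1) * (3 * A + 1).factorial ≤ u := by omega
  have hu20 : 20 ≤ u := le_trans (by norm_num) hu1
  have hupos : 0 < u := by omega
  have hx1 : (1 : ℝ) ≤ u := by exact_mod_cast hupos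
  have hx0 : (0 : ℝ) < u := by linarith
  have hAt : 2 * t + 5 ≤ A := by rw [hA]; nlinarith
  have hD : ((u ^ (t + 2) : ℕ) : ℝ) = (u : ℝ) ^ (t + 2) := by push_cast; ring
  rw [hD] at hw ⊢
  obtain ⟨hθ0, hθ⟩ := parb_theta _ w (pow_pos hx0 (t + 2)) hw
  have huθ : (u : ℝ) * ((w - 1) / (w + 1)) ≤ 1 / (2 * (u : ℝ) ^ (t + 1)) := by
    calc (u : ℝ) * ((w - 1) / (w + 1)) ≤ u * (1 / (2 * (u : ℝ) ^ (t + 2))) :=
          mul_le_mul_of_nonneg_left hθ hx0.le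
      _ = 1 / (2 * (u : ℝ) ^ (t + 1)) := by field_simp; ring
  have hrN : r ≤ (2 * u) ^ A := hr2.le.trans (Nat.pow_le_pow_left (by omega) A)
  have hrR : (r : ℝ) ≤ (2 * u) ^ A := by exact_mod_cast hrN
  have hlN : (99 * r / (100 * u)) * u ≤ r := by
    have h := Nat.div_mul_le_self (99 * r) (100 * u)
    nlinarith
  obtain ⟨l, hl⟩ : ∃ l : ℕ, l = 99 * r / (100 * u) := ⟨_, rfl⟩
  rw [← hl] at hlN ⊢
  have hlR : (l : ℝ) * u ≤ r := by exact_mod_cast hlN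
  have hl0 : (0 : ℝ) ≤ l := Nat.cast_nonneg _
  refine ⟨?_, ?_, ?_, ?_⟩
  · refine huθ.trans (one_div_le_one_div_of_le (by norm_num) ?_)
    have := one_le_pow₀ (n := t + 1) hx1
    linarith
  · have h1 : ((u : ℝ) * ((w - 1) / (w + 1))) ^ (t + 1) ≤ (1 / (u : ℝ) ^ (t + 1)) ^ (t + 1) := by
      refine pow_le_pow_left₀ (mul_nonneg hx0.le hθ0)
        (huθ.trans (one_div_le_one_div_of_le (by positivity) ?_)) _
      have := pow_pos hx0 (t + 1)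
      linarith
    have h2 : (1 / (u : ℝ) ^ (t + 1)) ^ (t + 1) = 1 / (u : ℝ) ^ A := by
      rw [div_pow, one_pow, ← pow_mul, hA, sq]
    rw [h2] at h1
    have h3 : 2 * (l : ℝ) ≤ (u : ℝ) ^ A := by
      have h4 : (2 : ℝ) * 2 ^ A ≤ u := by exact_mod_cast hu2
      have h5 : (l : ℝ) * u ≤ 2 ^ A * (u : ℝ) ^ A := by rw [← mul_pow]; exact hlR.trans hrR
      have h6 : (0 : ℝ) < 2 ^ A := by positivity
      have h7 : (l : ℝ) * (2 * 2 ^ A) ≤ l * u := mul_le_mul_of_nonneg_left h4 hl0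
      have h8 : 2 ^ A * (2 * (l : ℝ)) ≤ 2 ^ A * (u : ℝ) ^ A := by linarith
      exact le_of_mul_le_mul_left h8 h6
    calc 2 * (l : ℝ) * (u * ((w - 1) / (w + 1))) ^ (t + 1) ≤ (u : ℝ) ^ A * (1 / (u : ℝ) ^ A) :=
          mul_le_mul h3 h1 (pow_nonneg (mul_nonneg hx0.le hθ0) _) (by positivity)
      _ = 1 := by field_simp
  · have hy1 : (1 : ℝ) ≤ (2 * u) ^ A := one_le_pow₀ (by linarith)
    have h1 : √(r : ℝ) ≤ (2 * u) ^ A := by
      refine Real.sqrt_le_iff.mpr ⟨by positivity, hrR.trans ?_⟩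
      nlinarith
    have h2 : (l : ℝ) ≤ (2 * u) ^ A := by
      have : (l : ℝ) * 1 ≤ l * u := mul_le_mul_of_nonneg_left hx1 hl0
      linarith
    have h3 : (P : ℝ) + 1 ≤ 3 * (2 * u) ^ A := by
      have h4 : P ≤ 2 * (2 * u) ^ A :=
        hP.trans (Nat.mul_le_mul_left 2 ((Nat.pow_le_pow_left (by omega) t).trans
          (Nat.pow_le_pow_right (by omega) (by omega))))
      have h5 : (P : ℝ) ≤ 2 * (2 * u) ^ A := by exact_mod_cast h4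
      linarith
    have h4 : Real.exp (-((((u / 10 : ℕ) : ℝ)) ^ 2 / (2 * u))) ≤ Real.exp (-((u : ℝ) / 800)) := by
      refine Real.exp_le_exp.mpr (neg_le_neg ?_)
      have h5 : u ≤ 20 * (u / 10) := by omega
      have h6 : (u : ℝ) ≤ 20 * ((u / 10 : ℕ) : ℝ) := by exact_mod_cast h5
      rw [div_le_div_iff₀ (by norm_num) (by positivity)]
      nlinarith
    have h5 := parb_exp (3 * A) u (by exact_mod_cast hu3)
    refine le_trans ?_ h5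
    have h6 : 20 * √(r : ℝ) * ((l : ℝ) * (P + 1)) ≤ 60 * (2 * (u : ℝ)) ^ (3 * A) := by
      calc 20 * √(r : ℝ) * ((l : ℝ) * (P + 1))
          ≤ 20 * (2 * u) ^ A * ((2 * u) ^ A * (3 * (2 * u) ^ A)) := by gcongr
        _ = 60 * (2 * (u : ℝ)) ^ (3 * A) := by rw [pow_mul']; ring
    exact mul_le_mul h6 h4 (Real.exp_pos _).le (by positivity)
  · refine Real.le_sqrt_of_sq_le ?_
    have h1 : (14400 : ℝ) ^ 2 ≤ u := by exact_mod_cast hu1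
    have h2 : (u : ℝ) ^ A ≤ r := by exact_mod_cast hr1
    have h3 : (u : ℝ) ^ (2 * t + 5) ≤ (u : ℝ) ^ A := pow_le_pow_right₀ hx1 hAt
    calc (14400 * (u : ℝ) ^ (t + 2)) ^ 2 = 14400 ^ 2 * (u : ℝ) ^ (2 * t + 4) := by ring
      _ ≤ u * (u : ℝ) ^ (2 * t + 4) := mul_le_mul_of_nonneg_right h1 (by positivity)
      _ = (u : ℝ) ^ (2 * t + 5) := by ring
      _ ≤ r := h3.trans h2

end Pool.Agent.Work.MP_b5d674_co.Q
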