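import Pool.Agent.Work.MP_b5d674_co.Q.Defs

/-! The parameters. -/

namespace Pool.Agent.Work.MP_b5d674_co.Q

open Finset

theorem parc_ev (A : ℕ) {c : ℝ} (hc : 0 < c) :
    ∃ u0 : ℕ, ∀ u ≥ u0, 10 * ((u : ℝ) + 1) ^ A * Real.exp (1 - c * u) < 1 := by
  have h := (tendsto_rpow_mul_exp_neg_mul_atTop_nhds_zero (A : ℝ) c hc).comp
    (Filter.tendsto_atTop_add_const_right Filter.atTop 1 tendsto_natCast_atTop_atTop)
  have h2 := h.const_mul (10 * Real.exp (1 + c))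
  rw [mul_zero] at h2
  obtain ⟨u0, h3⟩ := Filter.eventually_atTop.1 (h2.eventually (gt_mem_nhds one_pos))
  refine ⟨u0, fun u hu => ?_⟩
  have h4 := h3 u hu
  simp only [Function.comp, Real.rpow_natCast] at h4
  calc _ = 10 * Real.exp (1 + c) * (((u : ℝ) + 1) ^ A * Real.exp (-c * (u + 1))) := by
        rw [show 1 - c * u = (1 + c) + -c * (u + 1) by ring, Real.exp_add]; ring
    _ < 1 := h4

theorem parc_real {r R D d j l j0 P u K : ℝ} {dn jn : ℕ} (hd : d = dn) (hj : j = jn) (hr0 : 0 ≤ r)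
    (hr : r ≤ R) (hD : 0 < D) (hP : 1 ≤ P) (hl : 0 < l) (hK : 0 < K) (hu : 5120 * K ≤ u)
    (h1 : j0 ≤ l) (h2 : l ≤ 80 * j0) (h3 : d ≤ 32 * u * j) (h4 : D ≤ 2 * d)
    (h5 : u * (u * P) ≤ K * D) (h6 : 10 * R * Real.exp (1 - 1 / (5120 * K) * u) < 1) :
    10 * r * (1 + 1 / D) ^ (2 * dn) * (1 - j0 / (l * P)) ^ jn < 1 := by
  have hP0 : 0 < P := by linarith
  have hu0 : 0 < u := by linarith
  have hd0 : 0 < d := by linarith
  have hj0 : 0 ≤ j := hj ▸ Nat.cast_nonneg jn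
  have a1 : (1 + 1 / D) ^ (2 * dn) ≤ Real.exp (2 * d / D) := by
    have e : 2 * d / D = ((2 * dn : ℕ) : ℝ) * (1 / D) := by rw [hd]; push_cast; ring
    rw [e, Real.exp_nat_mul]
    exact pow_le_pow_left₀ (by positivity) (by linarith [Real.add_one_le_exp (1 / D)]) _
  have a2 : j0 / (l * P) ≤ 1 := by
    rw [div_le_one (by positivity)]
    nlinarith
  have a3 : 1 / (80 * P) ≤ j0 / (l * P) := by
    rw [div_le_div_iff₀ (by positivity) (by positivity)]
    nlinarith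
  have a4 : (1 - j0 / (l * P)) ^ jn ≤ Real.exp (-(j / (80 * P))) := by
    have e : -(j / (80 * P)) = (jn : ℝ) * -(1 / (80 * P)) := by rw [hj]; ring
    rw [e, Real.exp_nat_mul]
    exact pow_le_pow_left₀ (by linarith) (by linarith [Real.add_one_le_exp (-(1 / (80 * P)))]) _
  have a5 : d / D * (u / (2560 * K)) ≤ j / (80 * P) := by
    rw [div_mul_div_comm, div_le_div_iff₀ (by positivity) (by positivity)]
    have b1 : d * (u * P) ≤ 32 * u * j * (u * P) := mul_le_mul_of_nonneg_right h3 (by positivity)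
    have b2 : j * (u * (u * P)) ≤ j * (K * D) := mul_le_mul_of_nonneg_left h5 hj0
    nlinarith
  have a6 : 1 / 2 ≤ d / D := by
    rw [div_le_div_iff₀ (by positivity) hD]
    linarith
  have a7 : 2 ≤ u / (2560 * K) := by
    rw [le_div_iff₀ (by positivity)]
    linarith
  have a8 : 2 * d / D + -(j / (80 * P)) ≤ 1 - 1 / (5120 * K) * u := by
    have e1 : 1 / (5120 * K) * u = 1 / 2 * (u / (2560 * K)) := by field_simp; ring
    have e2 : 2 * d / D = 2 * (d / D) := by ring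
    rw [e1, e2]
    nlinarith [mul_nonneg (sub_nonneg.2 a6) (sub_nonneg.2 a7)]
  calc _ ≤ 10 * R * Real.exp (2 * d / D) * Real.exp (-(j / (80 * P))) := by
        refine mul_le_mul (mul_le_mul (by linarith) a1 (by positivity) (by linarith)) a4
          (pow_nonneg (by linarith) _) (mul_nonneg (by linarith) (Real.exp_pos _).le)
    _ ≤ 10 * R * Real.exp (1 - 1 / (5120 * K) * u) := by
        rw [mul_assoc, ← Real.exp_add]
        exact mul_le_mul_of_nonneg_left (Real.exp_le_exp.2 a8) (by linarith)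
    _ < 1 := h6

/-- Take `j = d / (16 u)`; `j0/(l P) ≥ 1/(80 P)`, `(1-x)^j ≤ exp (-j x)`, `w^(2d) ≤ exp (2d/D)`,
`j ≥ d/(32 u)`, and `10^4 u P log (10 r) ≤ D` for large `u`. -/
theorem par_hit (t : ℕ) (ht : 2 ≤ t) : ∃ u0 : ℕ, ∀ u ≥ u0, ∀ r P m : ℕ, ∀ w : ℝ,
    u ^ ((t + 1) ^ 2) ≤ r → r < (u + 1) ^ ((t + 1) ^ 2) → 0 < P → P ≤ 2 * (u + 1) ^ t →
    w = 1 + 1 / ((u ^ (t + 2) : ℕ) : ℝ) → 100 * m ≤ 51 * r →
    ∀ d : ℕ, u ^ (t + 2) ≤ d + 1 → 2 * d ≤ m → ∃ j ≤ 99 * r / (100 * u) / 40, j * u < d ∧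
      10 * r * w ^ (2 * d) * (1 - ((99 * r / (100 * u) / 40 : ℕ) : ℝ) /
        (((99 * r / (100 * u) : ℕ) : ℝ) * P)) ^ j < 1 := by
  obtain ⟨u1, h1⟩ := parc_ev ((t + 1) ^ 2) (c := 1 / (5120 * 2 ^ (t + 1))) (by positivity)
  refine ⟨max u1 (5120 * 2 ^ (t + 1)), fun u hu r P m w hr hr' hP hP' hw hm d hd hdm => ?_⟩
  have hu1 : 5120 * 2 ^ (t + 1) ≤ u := le_trans (le_max_right _ _) hu
  have hK : 1 ≤ 2 ^ (t + 1) := Nat.one_le_two_pow
  have hu2 : 5120 ≤ u := by omega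
  have hu0 : 0 < u := by omega
  have p2 : ∀ n, 2 ≤ n → 5120 * u ≤ u ^ n := fun n hn =>
    le_trans (by rw [pow_two]; exact Nat.mul_le_mul_right u hu2) (Nat.pow_le_pow_right hu0 hn)
  have b1 := p2 (t + 2) (by omega)
  have b2 := p2 ((t + 1) ^ 2) (by nlinarith)
  have c1 : d / (16 * u) * (16 * u) ≤ d := Nat.div_mul_le_self _ _
  have c2 : d < 16 * u * (d / (16 * u) + 1) := Nat.lt_mul_div_succ d (by omega)
  have c3 : 1 ≤ d / (16 * u) := (Nat.le_div_iff_mul_le (by omega)).2 (by omega)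
  have c4 : 40 ≤ 99 * r / (100 * u) := (Nat.le_div_iff_mul_le (by omega)).2 (by omega)
  have c5 : u * (u * P) ≤ 2 ^ (t + 1) * u ^ (t + 2) := by
    have e : (u + 1) ^ t ≤ (2 * u) ^ t := Nat.pow_le_pow_left (by omega) t
    calc u * (u * P) ≤ u * (u * (2 * (2 * u) ^ t)) :=
          Nat.mul_le_mul_left _ (Nat.mul_le_mul_left _ (by omega))
      _ = _ := by rw [mul_pow]; ring
  refine ⟨d / (16 * u), ?_, ?_, ?_⟩
  · rw [Nat.div_div_eq_div_mul, Nat.le_div_iff_mul_le (by omega)]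
    have e : d / (16 * u) * (100 * u * 40) = 250 * (d / (16 * u) * (16 * u)) := by ring
    omega
  · have e : d / (16 * u) * (16 * u) = 16 * (d / (16 * u) * u) := by ring
    omega
  · rw [hw]
    refine parc_real (R := ((u : ℝ) + 1) ^ ((t + 1) ^ 2)) (u := u) (K := 2 ^ (t + 1)) rfl rfl
      (Nat.cast_nonneg r) (by exact_mod_cast hr'.le) (by positivity) (by exact_mod_cast hP)
      (by exact_mod_cast (by omega : 0 < 99 * r / (100 * u))) (by positivity)
      (by exact_mod_cast hu1) (by exact_mod_cast Nat.div_le_self _ _)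
      (by exact_mod_cast (by omega : 99 * r / (100 * u) ≤ 80 * (99 * r / (100 * u) / 40)))
      (by exact_mod_cast (by nlinarith : d ≤ 32 * u * (d / (16 * u))))
      (by exact_mod_cast (by omega : u ^ (t + 2) ≤ 2 * d)) (by exact_mod_cast c5)
      (h1 u (le_trans (le_max_left _ _) hu))

end Pool.Agent.Work.MP_b5d674_co.Q
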