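import Pool.Agent.Work.MP_b5d674_co.Q.Cell
import Pool.Agent.Work.MP_b5d674_co.Q.Anti

/-! Tail bounds for the agreement with a random pattern. -/

namespace Pool.Agent.Work.MP_b5d674_co.Q

open Finset

theorem tail_three {x : ℝ} {n : ℕ} (h0 : 0 ≤ x) (h1 : n * x ≤ 1) : (1 + x) ^ n ≤ 3 := by
  have a : (1 + x) ^ n ≤ Real.exp x ^ n :=
    pow_le_pow_left₀ (by linarith) (by linarith [Real.add_one_le_exp x]) n
  rw [← Real.exp_nat_mul] at a
  have b := Real.exp_le_exp.2 h1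
  have c := Real.exp_one_lt_d9
  linarith

theorem tail_ag {l c f P : ℕ} (π : Fin P → Fin c → Bool) (y : Pos l c f → Bool)
    (u : Fin l → Fin P) (v : Fin f → Bool) :
    ag y (pat π (u, v)) = (∑ τ, ag (fun a => y (Sum.inl (τ, a))) (π (u τ))) +
      ag (fun b => y (Sum.inr b)) v := by
  unfold ag
  simp only [card_filter]
  rw [Fintype.sum_sum_type, Fintype.sum_prod_type]
  rfl

theorem tail_cells {l c P t : ℕ} {π : Fin P → Fin c → Bool} (hπ : Indep π t) {w : ℝ} (hw : 1 ≤ w)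
    (hθ : c * ((w - 1) / (w + 1)) ≤ 1 / 2)
    (hl : 2 * l * (c * ((w - 1) / (w + 1))) ^ (t + 1) ≤ 1) (y : Fin l → Fin c → Bool) :
    ∑ u : Fin l → Fin P, w ^ (∑ τ, ag (y τ) (π (u τ))) ≤
      3 * ((1 + w) / 2) ^ (l * c) * (P : ℝ) ^ l := by
  have h0 : 0 ≤ 2 * (c * ((w - 1) / (w + 1))) ^ (t + 1) := by
    have : 0 ≤ (w - 1) / (w + 1) := div_nonneg (by linarith) (by linarith)
    positivity
  have e : ∑ u : Fin l → Fin P, w ^ (∑ τ, ag (y τ) (π (u τ))) =
      ∏ τ, ∑ p, w ^ ag (y τ) (π p) := by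
    rw [prod_univ_sum, Fintype.piFinset_univ]
    exact sum_congr rfl fun u _ => (prod_pow_eq_pow_sum _ _ _).symm
  have a : ∏ τ : Fin l, ∑ p, w ^ ag (y τ) (π p) ≤ ∏ _τ : Fin l,
      (P * ((1 + w) / 2) ^ c * (1 + 2 * (c * ((w - 1) / (w + 1))) ^ (t + 1))) :=
    prod_le_prod (fun τ _ => sum_nonneg fun p _ => by positivity)
      fun τ _ => cell_mgf hπ hw hθ (y τ)
  rw [prod_const, card_univ, Fintype.card_fin, mul_pow, mul_pow, ← pow_mul, mul_comm c l] at a
  have b := tail_three (n := l) h0 (by linarith)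
  have d : 0 ≤ (P : ℝ) ^ l * ((1 + w) / 2) ^ (l * c) := by positivity
  rw [e]
  calc _ ≤ _ := a
    _ ≤ (P : ℝ) ^ l * ((1 + w) / 2) ^ (l * c) * 3 := mul_le_mul_of_nonneg_left b d
    _ = _ := by ring

theorem tail_free {f : ℕ} (w : ℝ) (z : Fin f → Bool) :
    ∑ v : Fin f → Bool, w ^ ag z v = (1 + w) ^ f := by
  have e : ∀ v : Fin f → Bool, w ^ ag z v = ∏ i, if z i = v i then w else 1 := fun v => by
    rw [prod_ite, prod_const, prod_const_one, mul_one, ag]
  have a : ∀ i, ∑ b : Bool, (if z i = b then w else 1) = 1 + w := fun i => by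
    cases z i <;> simp [add_comm]
  simp only [e]
  rw [← Fintype.piFinset_univ, ← prod_univ_sum (fun _ => univ)
    fun i b => if z i = b then w else 1]
  simp only [a, prod_const, card_univ, Fintype.card_fin]

theorem tail_card (l P f : ℕ) : (Fintype.card (Om l P f) : ℝ) = (P : ℝ) ^ l * 2 ^ f := by
  simp [Om]

theorem tail_count {f : ℕ} (z : Fin f → Bool) (j : ℕ) :
    (univ.filter fun v : Fin f → Bool => ag z v = j).card ≤ f.choose j := by
  have e : f.choose j = (powersetCard j (univ : Finset (Fin f))).card := by simp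
  rw [e]
  refine card_le_card_of_injOn (fun v => univ.filter fun i => z i = v i) ?_ ?_
  · intro v hv
    have := (mem_filter.1 (mem_coe.1 hv)).2
    exact mem_coe.2 (mem_powersetCard.2 ⟨subset_univ _, this⟩)
  · intro v _ v' _ h
    funext i
    have := Finset.ext_iff.1 h i
    simp only [mem_filter, mem_univ, true_and] at this
    revert this
    cases z i <;> cases v i <;> cases v' i <;> simp

theorem tail_fib {f D : ℕ} (hD : 1 ≤ D) {w : ℝ} (hw : w = 1 + 1 / (D : ℝ)) (z : Fin f → Bool)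
    (a m : ℕ) : ((univ.filter fun v : Fin f → Bool => m < a + ag z v + D).card : ℝ) ≤
      6 * (1 + w) ^ f / √(f + 1) * D / w ^ m * w ^ a := by
  have D0 : (1 : ℝ) ≤ D := by exact_mod_cast hD
  have i0 : 0 < 1 / (D : ℝ) := by positivity
  have i1 : 1 / (D : ℝ) ≤ 1 := by
    rw [div_le_one (by linarith)]
    exact D0
  have w1 : 1 < w := by linarith
  have w0 : 0 < w := by linarith
  have s0 : 0 < √((f : ℝ) + 1) := Real.sqrt_pos.2 (by positivity)
  have wD : w ^ D ≤ 3 := by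
    rw [hw]
    exact tail_three i0.le (by rw [mul_one_div_cancel (by linarith)])
  set j0 := m + 1 - (a + D) with hj
  have a1 : (univ.filter fun v : Fin f → Bool => m < a + ag z v + D).card ≤
      ∑ j ∈ Ico j0 (f + 1), f.choose j := by
    rw [card_eq_sum_card_fiberwise (f := fun v => ag z v) (t := Ico j0 (f + 1))]
    · refine sum_le_sum fun j _ => le_trans (card_le_card ?_) (tail_count z j)
      intro v hv
      exact mem_filter.2 ⟨mem_univ _, (mem_filter.1 hv).2⟩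
    · intro v hv
      have h1 := (mem_filter.1 (mem_coe.1 hv)).2
      have h2 : ag z v ≤ f := (card_filter_le _ _).trans (by simp)
      have h3 : j0 ≤ ag z v := by omega
      exact mem_coe.2 (mem_Ico.2 ⟨h3, Nat.lt_succ_of_le h2⟩)
  have a2 : ∀ j, (f.choose j : ℝ) ≤ 2 * (1 + w) ^ f / √(f + 1) * w⁻¹ ^ j := fun j => by
    have := anti f j w1.le (by linarith)
    rw [inv_pow, ← div_eq_mul_inv, div_div, le_div_iff₀ (by positivity)]
    linarith
  have a3 : ∑ j ∈ Ico j0 (f + 1), w⁻¹ ^ j ≤ w⁻¹ ^ j0 / (1 - w⁻¹) :=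
    geom_sum_Ico_le_of_lt_one (by positivity) (inv_lt_one_of_one_lt₀ w1)
  have a4 : w⁻¹ ^ j0 / (1 - w⁻¹) = D * (w / w ^ j0) := by
    have : 1 - w⁻¹ = (D * w)⁻¹ := by
      rw [hw]
      field_simp
      ring
    rw [this, inv_pow]
    field_simp
  have a5 : w / w ^ j0 ≤ 3 / w ^ m * w ^ a := by
    rw [div_mul_eq_mul_div, div_le_div_iff₀ (by positivity) (by positivity)]
    have b : w ^ (m + 1) ≤ w ^ (D + a + j0) := pow_le_pow_right₀ w1.le (by omega)
    rw [pow_succ', pow_add, pow_add] at b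
    have c : w ^ D * w ^ a * w ^ j0 ≤ 3 * w ^ a * w ^ j0 := by gcongr
    linarith
  have K0 : 0 ≤ 2 * (1 + w) ^ f / √((f : ℝ) + 1) := by positivity
  calc _ ≤ ((∑ j ∈ Ico j0 (f + 1), f.choose j : ℕ) : ℝ) := by exact_mod_cast a1
    _ ≤ ∑ j ∈ Ico j0 (f + 1), 2 * (1 + w) ^ f / √(f + 1) * w⁻¹ ^ j := by
      rw [Nat.cast_sum]
      exact sum_le_sum fun j _ => a2 j
    _ ≤ 2 * (1 + w) ^ f / √(f + 1) * (D * (3 / w ^ m * w ^ a)) := by
      rw [← mul_sum]
      refine mul_le_mul_of_nonneg_left (a3.trans ?_) K0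
      rw [a4]
      gcongr
    _ = _ := by ring

/-- Product over the cells (`cell_mgf`, `(1+x)^l ≤ exp (l x) ≤ 3`) and the free part, then Markov. -/
theorem cher {l c f P t : ℕ} {π : Fin P → Fin c → Bool} (hπ : Indep π t) {w : ℝ} (hw : 1 ≤ w)
    (hθ : c * ((w - 1) / (w + 1)) ≤ 1 / 2)
    (hl : 2 * l * (c * ((w - 1) / (w + 1))) ^ (t + 1) ≤ 1) (y : Pos l c f → Bool) (m δ : ℕ) :
    ((univ.filter fun ω : Om l P f => m ≤ ag y (pat π ω) + δ).card : ℝ) ≤
      3 * (((1 + w) / 2) ^ (l * c + f) / w ^ m) * w ^ δ * Fintype.card (Om l P f) := by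
  have w0 : 0 < w := by linarith
  have a1 : ((univ.filter fun ω : Om l P f => m ≤ ag y (pat π ω) + δ).card : ℝ) ≤
      ∑ ω : Om l P f, w ^ δ / w ^ m * w ^ ag y (pat π ω) := by
    rw [card_filter, Nat.cast_sum]
    refine sum_le_sum fun ω _ => ?_
    split_ifs with h
    · rw [Nat.cast_one, div_mul_eq_mul_div, one_le_div (by positivity), ← pow_add]
      exact pow_le_pow_right₀ hw (by omega)
    · rw [Nat.cast_zero]
      positivity
  have a2 : ∑ ω : Om l P f, w ^ ag y (pat π ω) =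
      (∑ u : Fin l → Fin P, w ^ (∑ τ, ag (fun a => y (Sum.inl (τ, a))) (π (u τ)))) *
        (1 + w) ^ f := by
    rw [Fintype.sum_prod_type, sum_mul]
    refine sum_congr rfl fun u _ => ?_
    rw [← tail_free w fun b => y (Sum.inr b), mul_sum]
    exact sum_congr rfl fun v _ => by rw [tail_ag, pow_add]
  have a3 := tail_cells hπ hw hθ hl fun τ a => y (Sum.inl (τ, a))
  rw [← mul_sum, a2] at a1
  have e : (1 + w) ^ f = ((1 + w) / 2) ^ f * 2 ^ f := by
    rw [← mul_pow, div_mul_cancel₀ _ two_ne_zero]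
  calc _ ≤ _ := a1
    _ ≤ w ^ δ / w ^ m * (3 * ((1 + w) / 2) ^ (l * c) * (P : ℝ) ^ l * (1 + w) ^ f) := by gcongr
    _ = _ := by
      rw [tail_card, e, pow_add]
      ring

/-- First the point bound `#{ω : ag = s} w^s ≤ 6/√(f+1) ((1+w)/2)^r card Ω` (for fixed cell part
with agreement `a` the free part has `C(f, s-a)` choices, use `anti`), then the geometric series
`∑_{s+D>m} w^(-s) ≤ D w^D / w^m` and `w^D ≤ 3`. -/
theorem sharp {l c f P t D : ℕ} {π : Fin P → Fin c → Bool} (hπ : Indep π t) (hD : 1 ≤ D) {w : ℝ}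
    (hw : w = 1 + 1 / (D : ℝ)) (hθ : c * ((w - 1) / (w + 1)) ≤ 1 / 2)
    (hl : 2 * l * (c * ((w - 1) / (w + 1))) ^ (t + 1) ≤ 1) (y : Pos l c f → Bool) (m : ℕ) :
    ((univ.filter fun ω : Om l P f => m < ag y (pat π ω) + D).card : ℝ) ≤
      18 * (((1 + w) / 2) ^ (l * c + f) / w ^ m) * D / √(f + 1) * Fintype.card (Om l P f) := by
  have w1 : 1 ≤ w := by
    have : 0 ≤ 1 / (D : ℝ) := by positivity
    linarith
  have w0 : 0 < w := by linarith
  have a1 : ((univ.filter fun ω : Om l P f => m < ag y (pat π ω) + D).card : ℝ) ≤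
      ∑ u : Fin l → Fin P, 6 * (1 + w) ^ f / √(f + 1) * D / w ^ m *
        w ^ (∑ τ, ag (fun a => y (Sum.inl (τ, a))) (π (u τ))) := by
    rw [card_filter, Fintype.sum_prod_type, Nat.cast_sum]
    refine sum_le_sum fun u _ => ?_
    simp only [tail_ag]
    rw [← card_filter]
    exact tail_fib hD hw _ _ m
  have a3 := tail_cells hπ w1 hθ hl fun τ a => y (Sum.inl (τ, a))
  rw [← mul_sum] at a1
  have e : (1 + w) ^ f = ((1 + w) / 2) ^ f * 2 ^ f := by
    rw [← mul_pow, div_mul_cancel₀ _ two_ne_zero]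
  calc _ ≤ _ := a1
    _ ≤ 6 * (1 + w) ^ f / √(f + 1) * D / w ^ m *
        (3 * ((1 + w) / 2) ^ (l * c) * (P : ℝ) ^ l) := by gcongr
    _ = _ := by
      rw [tail_card, e, pow_add]
      ring

end Pool.Agent.Work.MP_b5d674_co.Q
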